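import Mathlib

/-!
A combinatorial form of the Borsuk-Ulam theorem, proved with mod 2 cochains on lists.
-/

namespace Pool.Agent.Lib.PolyPart

open Finset

section Cochain

variable {V : Type*}

/-- Coboundary of a mod 2 cochain on lists. -/
def del : List V → (List V → ZMod 2) → ZMod 2
  | [], _ => 0
  | x :: l, φ => φ l + del l (fun r => φ (x :: r))

/-- Prism operator. -/
def pr (f g : V → V) : List V → (List V → ZMod 2) → ZMod 2
  | [], _ => 0
  | x :: l, φ => φ (f x :: g x :: l.map g) + pr f g l (fun r => φ (f x :: r))

lemma two_z (a : ZMod 2) : a + a = 0 := by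
  have : (2 : ZMod 2) = 0 := rfl
  rw [← two_mul, this, zero_mul]

lemma del_add (l : List V) (φ ψ : List V → ZMod 2) :
    del l (fun r => φ r + ψ r) = del l φ + del l ψ := by
  induction l generalizing φ ψ with
  | nil => simp [del]
  | cons x l ih => simp only [del]; rw [ih]; ring

lemma del_mul (l : List V) (c : ZMod 2) (φ : List V → ZMod 2) :
    del l (fun r => c * φ r) = c * del l φ := by
  induction l generalizing φ with
  | nil => simp [del]
  | cons x l ih => simp only [del]; rw [ih]; ring

lemma pr_add (f g : V → V) (l : List V) (φ ψ : List V → ZMod 2) :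
    pr f g l (fun r => φ r + ψ r) = pr f g l φ + pr f g l ψ := by
  induction l generalizing φ ψ with
  | nil => simp [pr]
  | cons x l ih => simp only [pr]; rw [ih]; ring

lemma del_map (g : V → V) (l : List V) (φ : List V → ZMod 2) :
    del (l.map g) φ = del l (fun r => φ (r.map g)) := by
  induction l generalizing φ with
  | nil => simp [del]
  | cons x l ih => simp only [List.map_cons, del]; rw [ih]

lemma del_del (l : List V) (φ : List V → ZMod 2) : del l (fun r => del r φ) = 0 := by
  induction l generalizing φ with
  | nil => simp [del]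
  | cons x l ih =>
    simp only [del]
    rw [del_add, ih, add_zero, two_z]

lemma del_congr (l : List V) (φ ψ : List V → ZMod 2)
    (h : ∀ r, (∀ x ∈ r, x ∈ l) → φ r = ψ r) : del l φ = del l ψ := by
  induction l generalizing φ ψ with
  | nil => simp [del]
  | cons x l ih =>
    simp only [del]
    rw [h l (fun y hy => List.mem_cons_of_mem _ hy), ih]
    intro r hr
    apply h
    intro y hy
    rcases List.mem_cons.1 hy with rfl | hy
    · exact List.mem_cons_self
    · exact List.mem_cons_of_mem _ (hr y hy)

lemma del_zero (l : List V) : del l (fun _ => 0) = 0 := by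
  have := del_mul l 0 (fun _ => 0)
  simpa using this

lemma pr_zero_of (f g : V → V) (l : List V) (φ : List V → ZMod 2)
    (h : ∀ r, (∀ x ∈ r, ∃ y ∈ l, x = f y ∨ x = g y) → φ r = 0) : pr f g l φ = 0 := by
  induction l generalizing φ with
  | nil => simp [pr]
  | cons x l ih =>
    simp only [pr]
    rw [h, ih, add_zero]
    · intro r hr
      apply h
      intro y hy
      rcases List.mem_cons.1 hy with rfl | hy
      · exact ⟨x, List.mem_cons_self, Or.inl rfl⟩
      · obtain ⟨z, hz, hz'⟩ := hr y hy
        exact ⟨z, List.mem_cons_of_mem _ hz, hz'⟩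
    · intro y hy
      rcases List.mem_cons.1 hy with rfl | hy
      · exact ⟨x, List.mem_cons_self, Or.inl rfl⟩
      rcases List.mem_cons.1 hy with rfl | hy
      · exact ⟨x, List.mem_cons_self, Or.inr rfl⟩
      obtain ⟨z, hz, rfl⟩ := List.mem_map.1 hy
      exact ⟨z, List.mem_cons_of_mem _ hz, Or.inr rfl⟩

lemma del_pr (f g : V → V) (l : List V) (φ : List V → ZMod 2) :
    del l (fun r => pr f g r φ) + pr f g l (fun r => del r φ) = φ (l.map f) + φ (l.map g) := by
  induction l generalizing φ with
  | nil => simp [del, pr, two_z]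
  | cons x l ih =>
    simp only [del, pr, List.map_cons]
    rw [del_add, pr_add, del_map]
    have h := ih (fun r => φ (f x :: r))
    have e1 := two_z (pr f g l φ)
    have e2 := two_z (del l fun r => φ (f x :: g x :: List.map g r))
    have e3 := two_z (φ (f x :: List.map g l))
    linear_combination h + e1 + e2 + e3

/-- Front product with a function. -/
def fr (s : V → ZMod 2) (φ : List V → ZMod 2) : List V → ZMod 2
  | [] => 0
  | x :: l => s x * φ (x :: l)

/-- Cup product of the coboundaries of the functions in a list. -/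
def cup : List (V → ZMod 2) → List V → ZMod 2
  | [], l => if l.length = 1 then 1 else 0
  | s :: ss, l => del l (fr s (cup ss))

lemma cup_nil (ss : List (V → ZMod 2)) : cup ss ([] : List V) = 0 := by
  cases ss <;> simp [cup, del]

lemma del_len (l : List V) (n : ℕ) :
    del l (fun r => if r.length = n then 1 else 0) =
      if l.length = n + 1 then ((n + 1 : ℕ) : ZMod 2) else 0 := by
  induction l generalizing n with
  | nil => simp [del]
  | cons x l ih =>
    simp only [del, List.length_cons]
    cases n with
    | zero =>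
      simp only [Nat.add_eq_zero_iff, one_ne_zero, and_false, if_false, del_zero, add_zero,
        zero_add, Nat.add_eq_right, Nat.cast_one]
    | succ n =>
      simp only [Nat.add_right_cancel_iff]
      rw [ih]
      split_ifs
      · push_cast; ring
      · simp

lemma del_cup (ss : List (V → ZMod 2)) (l : List V) : del l (cup ss) = 0 := by
  cases ss with
  | nil =>
    have := del_len l 1
    have h2 : ((1 + 1 : ℕ) : ZMod 2) = 0 := rfl
    rw [h2, ite_self] at this
    exact this
  | cons s ss => exact del_del l _

lemma cup_map (ν : V → V) (ss : List (V → ZMod 2)) (hs : ∀ s ∈ ss, ∀ x, s (ν x) = s x + 1)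
    (l : List V) : cup ss (l.map ν) = cup ss l := by
  induction ss generalizing l with
  | nil => simp [cup]
  | cons s ss ih =>
    simp only [cup]
    rw [del_map]
    have h : (fun r => fr s (cup ss) (List.map ν r)) = fun r => fr s (cup ss) r + cup ss r := by
      funext r
      cases r with
      | nil => simp [fr, cup_nil]
      | cons x r =>
        have := ih (fun t ht => hs t (List.mem_cons_of_mem _ ht)) (x :: r)
        simp only [List.map_cons] at this
        simp only [List.map_cons, fr, this, hs s List.mem_cons_self]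
        ring
    rw [h, del_add, del_cup, add_zero]

lemma cup_eq_zero (ss : List (V → ZMod 2)) (s : V → ZMod 2) (hs : s ∈ ss) (l : List V)
    (h : ∀ x ∈ l, ∀ y ∈ l, s x = s y) : cup ss l = 0 := by
  induction ss generalizing l with
  | nil => simp at hs
  | cons t ss ih =>
    simp only [cup]
    rcases List.mem_cons.1 hs with rfl | hs
    · cases l with
      | nil => simp [del]
      | cons z l =>
        rw [del_congr _ _ (fun r => s z * cup ss r), del_mul, del_cup, mul_zero]
        intro r hr
        cases r with
        | nil => simp [fr, cup_nil]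
        | cons x r =>
          simp only [fr]
          rw [h x (hr x List.mem_cons_self) z List.mem_cons_self]
    · rw [del_congr _ _ (fun _ => 0), del_zero]
      intro r hr
      cases r with
      | nil => simp [fr]
      | cons x r =>
        simp only [fr]
        rw [ih hs _ (fun a ha b hb => h a (hr a ha) b (hr b hb)), mul_zero]

/-- Abstract hemisphere chains. -/
theorem exists_chain (ν : V → V) (hν : ∀ x, ν (ν x) = x) (Good : ℕ → List V → Prop) (e₀ : V)
    (M : ℕ) (f : ℕ → ℕ → V → V) (e : ℕ → V)
    (h0 : Good 0 [e₀]) (hGν : ∀ i l, Good i l → Good i (l.map ν))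
    (hf0 : ∀ i x, f i 0 x = x) (hfM : ∀ i x, f i M x = e i)
    (hG : ∀ i t l r, t < M → Good i l →
      (∀ x ∈ r, ∃ y ∈ l, x = f i t y ∨ x = f i (t + 1) y) → Good (i + 1) r) (i : ℕ) :
    ∃ H : (List V → ZMod 2) → ZMod 2, (∀ φ ψ, H (fun r => φ r + ψ r) = H φ + H ψ) ∧
      (∀ φ, (∀ l, Good i l → φ l = 0) → H φ = 0) ∧
      (∀ ψ, H (fun r => del r ψ) + H (fun r => del (r.map ν) ψ) = 0) ∧
      ∀ ss : List (V → ZMod 2), ss.length = i → (∀ s ∈ ss, ∀ x, s (ν x) = s x + 1) →
        H (cup ss) = 1 := by
  induction i with
  | zero =>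
    refine ⟨fun φ => φ [e₀], fun _ _ => rfl, fun φ h => h _ h0, fun ψ => ?_, ?_⟩
    · simp [del, two_z]
    · intro ss hss _
      rw [List.length_eq_zero_iff] at hss
      subst hss
      simp [cup]
  | succ i ih =>
    obtain ⟨H, hadd, hsupp, hcyc, hcup⟩ := ih
    let Z : (List V → ZMod 2) → ZMod 2 := fun φ => H φ + H (fun r => φ (r.map ν))
    have Zadd : ∀ φ ψ, Z (fun r => φ r + ψ r) = Z φ + Z ψ := by
      intro φ ψ
      simp only [Z]
      rw [hadd, hadd]; ring
    have Zν : ∀ φ, Z (fun r => φ (r.map ν)) = Z φ := by
      intro φ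
      have : (fun r : List V => φ (List.map ν (List.map ν r))) = φ := by
        funext r
        rw [List.map_map]
        congr 1
        conv_rhs => rw [← List.map_id r]
        exact List.map_congr_left fun x _ => hν x
      simp only [Z, this]
      ring
    have Zdel : ∀ ψ, Z (fun r => del r ψ) = 0 := hcyc
    let H' : (List V → ZMod 2) → ZMod 2 := fun φ =>
      ∑ t ∈ range M, Z (fun r => pr (f i t) (f i (t + 1)) r φ)
    have H'del : ∀ φ, H' (fun r => del r φ) = Z φ := by
      intro φ
      have h1 : ∀ t, Z (fun r => pr (f i t) (f i (t + 1)) r (fun r => del r φ)) =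
          Z (fun r => φ (r.map (f i (t + 1)))) - Z (fun r => φ (r.map (f i t))) := by
        intro t
        have h2 : (fun r => del r (fun r => pr (f i t) (f i (t + 1)) r φ) +
            pr (f i t) (f i (t + 1)) r (fun r => del r φ)) =
            fun r => φ (r.map (f i t)) + φ (r.map (f i (t + 1))) := by
          funext r; exact del_pr _ _ _ _
        have h3 := congrArg Z h2
        rw [Zadd, Zadd, Zdel, zero_add] at h3
        rw [h3]
        have := two_z (Z fun r => φ (List.map (f i t) r))
        linear_combination this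
      simp only [H', h1]
      rw [Finset.sum_range_sub (fun t => Z (fun r => φ (r.map (f i t))))]
      have hM : Z (fun r => φ (r.map (f i M))) = 0 := by
        have : (fun r : List V => φ (List.map (f i M) (List.map ν r))) =
            fun r => φ (r.map (f i M)) := by
          funext r
          rw [List.map_map]
          congr 1
          exact List.map_congr_left fun x _ => by simp [hfM]
        simp only [Z, this, two_z]
      have h0' : (fun r : List V => φ (r.map (f i 0))) = φ := by
        funext r
        congr 1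
        conv_rhs => rw [← List.map_id r]
        exact List.map_congr_left fun x _ => hf0 i x
      rw [hM, h0']
      have := two_z (Z φ)
      linear_combination -this
    refine ⟨H', ?_, ?_, ?_, ?_⟩
    · intro φ ψ
      simp only [H']
      rw [← sum_add_distrib]
      apply sum_congr rfl
      intro t _
      rw [← Zadd]
      congr 1
      funext r
      exact pr_add _ _ _ _ _
    · intro φ hφ
      apply sum_eq_zero
      intro t ht
      have key : ∀ l, Good i l → pr (f i t) (f i (t + 1)) l φ = 0 := by
        intro l hl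
        exact pr_zero_of _ _ _ _ fun r hr => hφ r (hG i t l r (mem_range.1 ht) hl hr)
      simp only [Z]
      rw [hsupp _ key, hsupp _ (fun l hl => key _ (hGν i l hl)), add_zero]
    · intro ψ
      have : (fun r : List V => del (r.map ν) ψ) = fun r => del r (fun r => ψ (r.map ν)) := by
        funext r; exact del_map _ _ _
      rw [this, H'del, H'del, Zν, two_z]
    · intro ss hss hodd
      cases ss with
      | nil => simp at hss
      | cons s ss =>
        have hss' : ss.length = i := by simpa using hss
        have hodd' : ∀ t ∈ ss, ∀ x, t (ν x) = t x + 1 :=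
          fun t ht => hodd t (List.mem_cons_of_mem _ ht)
        have : cup (s :: ss) = fun r => del r (fr s (cup ss)) := by
          funext r; rfl
        rw [this, H'del]
        simp only [Z]
        rw [← hadd, ← hcup ss hss' hodd']
        congr 1
        funext r
        cases r with
        | nil => simp [fr, cup_nil]
        | cons x r =>
          have h := cup_map ν ss hodd' (x :: r)
          simp only [List.map_cons] at h
          simp only [List.map_cons, fr, h, hodd s List.mem_cons_self]
          have := two_z (s x * cup ss (x :: r))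
          linear_combination this

end Cochain

/-- Borsuk-Ulam for odd labelings: for `m` odd functions with values in `ZMod 2` on
`ℝ^(m+1)` there is a nonzero point at which none of them is locally constant. -/
theorem borsuk_ulam_labels (m : ℕ) (s : Fin m → (Fin (m + 1) → ℝ) → ZMod 2)
    (hs : ∀ k x, x ≠ 0 → s k (-x) = s k x + 1) :
    ∃ w : Fin (m + 1) → ℝ, w ≠ 0 ∧ ∀ k, ¬ ∀ᶠ x in nhds w, s k x = s k w := by
  classical
  by_contra hcon
  push Not at hcon
  let S : Set (Fin (m + 1) → ℝ) := {x | ∑ j, |x j| = 1}
  have hS0 : ∀ x ∈ S, x ≠ 0 := by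
    rintro x hx rfl
    simp [S] at hx
  have hSb : ∀ x ∈ S, ∀ j, |x j| ≤ 1 := by
    intro x hx j
    have : ∑ j, |x j| = 1 := hx
    rw [← this]
    exact single_le_sum (f := fun j => |x j|) (fun _ _ => abs_nonneg _) (mem_univ j)
  have hSc : IsCompact S := by
    refine (isCompact_univ_pi fun _ : Fin (m + 1) => isCompact_Icc (a := (-1 : ℝ))
      (b := 1)).of_isClosed_subset (isClosed_eq (by fun_prop) continuous_const) ?_
    intro x hx j _
    exact abs_le.1 (hSb x hx j)
  have hU : ∀ w : S, ∃ U : Set (Fin (m + 1) → ℝ), IsOpen U ∧ w.1 ∈ U ∧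
      ∃ k, ∀ x ∈ U, s k x = s k w := by
    intro w
    obtain ⟨k, hk⟩ := hcon w (hS0 _ w.2)
    obtain ⟨U, hU, hUo, hw⟩ := eventually_nhds_iff.1 hk
    exact ⟨U, hUo, hw, k, hU⟩
  choose U hUo hUw hUk using hU
  obtain ⟨δ, hδ, hleb⟩ := lebesgue_number_lemma_of_metric hSc hUo
    (fun x hx => Set.mem_iUnion.2 ⟨⟨x, hx⟩, hUw _⟩)
  obtain ⟨M, hM⟩ := exists_nat_gt (2 * (m + 1) / δ)
  have hM0 : (0 : ℝ) < M := lt_of_le_of_lt (by positivity) hM
  have hM0' : M ≠ 0 := by rintro rfl; simp at hM0
  let V := (Fin (m + 1) → ℝ) × ZMod 2
  let ν : V → V := fun p => (-p.1, p.2 + 1)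
  let E : ℕ → Fin (m + 1) → ℝ := fun i j => if (j : ℕ) = i then 1 else 0
  let Good : ℕ → List V → Prop := fun i l => i ≤ m →
    (∀ p ∈ l, p.1 ∈ S ∧ ∀ j : Fin (m + 1), i < j → p.1 j = 0) ∧
      ∀ p ∈ l, ∀ q ∈ l, dist p.1 q.1 ≤ 2 * i / M
  let f : ℕ → ℕ → V → V := fun i t p =>
    ((1 - (t : ℝ) / M) • p.1 + ((t : ℝ) / M) • E (i + 1), if t = 0 then p.2 else 0)
  obtain ⟨H, -, hsupp, -, hcup⟩ := exists_chain ν
    (fun p => by
      simp only [ν, neg_neg]
      ext
      · rfl
      · simp only [add_assoc, two_z, add_zero])
    Good (E 0, 0) M f (fun i => (E (i + 1), 0))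
    (fun _ => by
      refine ⟨?_, by simp⟩
      intro p hp
      rw [List.mem_singleton] at hp
      subst hp
      refine ⟨?_, fun j hj => if_neg (by omega)⟩
      simp only [S, E, Set.mem_ofPred_eq]
      rw [Fin.sum_univ_succ]
      simp)
    (fun i l hl hi => by
      obtain ⟨h1, h2⟩ := hl hi
      constructor
      · intro p hp
        obtain ⟨q, hq, rfl⟩ := List.mem_map.1 hp
        refine ⟨?_, fun j hj => by simp [ν, (h1 q hq).2 j hj]⟩
        have := (h1 q hq).1
        simpa [S, ν] using this
      · intro p hp p' hp'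
        obtain ⟨q, hq, rfl⟩ := List.mem_map.1 hp
        obtain ⟨q', hq', rfl⟩ := List.mem_map.1 hp'
        simpa [ν] using h2 q hq q' hq')
    (fun i p => by simp [f])
    (fun i p => by simp [f, hM0.ne', hM0'])
    (fun i t l r ht hl hr hi => by
      obtain ⟨h1, h2⟩ := hl (by omega)
      have hτ : ∀ p ∈ r, ∃ q ∈ l, ∃ u : ℕ, u ≤ M ∧ t ≤ u ∧ u ≤ t + 1 ∧ p = f i u q := by
        intro p hp
        obtain ⟨q, hq, h | h⟩ := hr p hp
        · exact ⟨q, hq, t, ht.le, le_rfl, by omega, h⟩
        · exact ⟨q, hq, t + 1, ht, by omega, le_rfl, h⟩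
      have hτ01 : ∀ u : ℕ, u ≤ M → 0 ≤ (u : ℝ) / M ∧ (u : ℝ) / M ≤ 1 := by
        intro u hu
        refine ⟨by positivity, ?_⟩
        rw [div_le_one hM0]; exact_mod_cast hu
      constructor
      · intro p hp
        obtain ⟨q, hq, u, hu, -, -, rfl⟩ := hτ p hp
        obtain ⟨ha, hb⟩ := hτ01 u hu
        obtain ⟨hqS, hq0⟩ := h1 q hq
        refine ⟨?_, fun j hj => ?_⟩
        · have hqS' : ∑ j, |q.1 j| = 1 := hqS
          have key : ∀ j : Fin (m + 1), |(f i u q).1 j| =
              (1 - (u : ℝ) / M) * |q.1 j| + (u : ℝ) / M * E (i + 1) j := by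
            intro j
            simp only [f, Pi.add_apply, Pi.smul_apply, smul_eq_mul, E]
            split_ifs with h
            · rw [hq0 j (by omega)]; simp [abs_of_nonneg ha]
            · simp [abs_mul, abs_of_nonneg (sub_nonneg.2 hb)]
          change ∑ j, |(f i u q).1 j| = 1
          simp only [key, sum_add_distrib, ← mul_sum, hqS']
          have : ∑ j, E (i + 1) j = 1 := by
            rw [sum_eq_single (⟨i + 1, by omega⟩ : Fin (m + 1))]
            · simp [E]
            · intro b _ hb
              simp only [E]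
              rw [if_neg]
              intro h; apply hb; ext; exact h
            · simp
          rw [this]; ring
        · simp only [f, Pi.add_apply, Pi.smul_apply, smul_eq_mul, E]
          rw [hq0 j (by omega), if_neg (by omega)]; simp
      · intro p hp p' hp'
        obtain ⟨q, hq, u, hu, hu1, hu2, rfl⟩ := hτ p hp
        obtain ⟨q', hq', u', hu', hu1', hu2', rfl⟩ := hτ p' hp'
        obtain ⟨ha, hb⟩ := hτ01 u hu
        have hd := h2 q hq q' hq'
        rw [dist_pi_le_iff (by positivity)]
        intro j
        have hj := (dist_le_pi_dist q.1 q'.1 j).trans hd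
        rw [Real.dist_eq] at hj ⊢
        have hq1 := hSb _ (h1 q' hq').1 j
        have hE : |E (i + 1) j| ≤ 1 := by simp only [E]; split_ifs <;> simp
        have huu : |(u : ℝ) / M - (u' : ℝ) / M| ≤ 1 / M := by
          rw [← sub_div, abs_div, abs_of_pos hM0]
          apply div_le_div_of_nonneg_right _ hM0.le
          have a1 : (t : ℝ) ≤ u := by exact_mod_cast hu1
          have a2 : (u : ℝ) ≤ t + 1 := by exact_mod_cast hu2
          have a3 : (t : ℝ) ≤ u' := by exact_mod_cast hu1'
          have a4 : (u' : ℝ) ≤ t + 1 := by exact_mod_cast hu2'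
          rw [abs_le]; constructor <;> linarith
        have e : (f i u q).1 j - (f i u' q').1 j = (1 - (u : ℝ) / M) * (q.1 j - q'.1 j) +
            ((u : ℝ) / M - (u' : ℝ) / M) * (E (i + 1) j - q'.1 j) := by
          simp only [f, Pi.add_apply, Pi.smul_apply, smul_eq_mul]; ring
        rw [e]
        refine (abs_add_le _ _).trans ?_
        rw [abs_mul, abs_mul, abs_of_nonneg (sub_nonneg.2 hb)]
        have b1 : (1 - (u : ℝ) / M) * |q.1 j - q'.1 j| ≤ 2 * i / M := by
          calc _ ≤ 1 * |q.1 j - q'.1 j| :=
                mul_le_mul_of_nonneg_right (by linarith) (abs_nonneg _)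
            _ ≤ _ := by rw [one_mul]; exact hj
        have b2 : |E (i + 1) j - q'.1 j| ≤ 2 := by
          refine (abs_sub _ _).trans (by linarith)
        have b3 : |(u : ℝ) / M - (u' : ℝ) / M| * |E (i + 1) j - q'.1 j| ≤ 1 / M * 2 :=
          mul_le_mul huu b2 (abs_nonneg _) (by positivity)
        have : (2 : ℝ) * ((i + 1 : ℕ) : ℝ) / M = 2 * i / M + 1 / M * 2 := by
          push_cast; ring
        rw [this]; linarith)
    m
  let s' : Fin m → V → ZMod 2 := fun k p => if p.1 = 0 then p.2 else s k p.1
  have h1 := hcup (List.ofFn s') (by simp) (by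
    intro t ht p
    obtain ⟨k, rfl⟩ := List.mem_ofFn.1 ht
    simp only [s', ν, neg_eq_zero]
    split_ifs with h
    · rfl
    · exact hs k _ h)
  rw [hsupp] at h1
  · exact zero_ne_one h1
  intro l hl
  obtain ⟨h2, h3⟩ := hl le_rfl
  cases l with
  | nil => exact cup_nil _
  | cons p l =>
    obtain ⟨w, hw⟩ := hleb p.1 (h2 p List.mem_cons_self).1
    obtain ⟨k, hk⟩ := hUk w
    have key : ∀ q ∈ p :: l, s' k q = s k w := by
      intro q hq
      simp only [s']
      rw [if_neg (hS0 _ (h2 q hq).1)]
      apply hk
      apply hw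
      rw [Metric.mem_ball]
      refine (h3 q hq p List.mem_cons_self).trans_lt ?_
      rw [div_lt_iff₀ hδ] at hM
      rw [div_lt_iff₀ hM0]
      nlinarith
    exact cup_eq_zero _ (s' k) (List.mem_ofFn.2 ⟨k, rfl⟩) _
      (fun a ha b hb => by rw [key a ha, key b hb])

end Pool.Agent.Lib.PolyPart
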