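import Pool.Agent.Lib.PolyPart.BU

/-!
Discrete ham sandwich theorem and polynomial partitioning.
-/

namespace Pool.Agent.Lib.PolyPart

open Finset MvPolynomial

theorem ham_fin {α : Type*} (m : ℕ) (φ : α → Fin (m + 1) → ℝ) (X : Fin m → Finset α) :
    ∃ w : Fin (m + 1) → ℝ, w ≠ 0 ∧ ∀ k,
      2 * #{x ∈ X k | 0 < φ x ⬝ᵥ w} ≤ #(X k) ∧ 2 * #{x ∈ X k | φ x ⬝ᵥ w < 0} ≤ #(X k) := by
  classical
  let P : Fin m → (Fin (m + 1) → ℝ) → ℕ := fun k w => #{x ∈ X k | 0 < φ x ⬝ᵥ w}
  let N : Fin m → (Fin (m + 1) → ℝ) → ℕ := fun k w => #{x ∈ X k | φ x ⬝ᵥ w < 0}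
  have hPN : ∀ k w, P k (-w) = N k w := by
    intro k w; simp [P, N]
  have hNP : ∀ k w, N k (-w) = P k w := by
    intro k w; simp [P, N]
  have hsum : ∀ k w, P k w + N k w ≤ #(X k) := by
    intro k w
    simp only [P, N]
    rw [← card_union_of_disjoint]
    · exact card_le_card (union_subset (filter_subset _ _) (filter_subset _ _))
    · rw [disjoint_filter]
      intro x _ h1 h2
      exact lt_asymm h1 h2
  let s : Fin m → (Fin (m + 1) → ℝ) → ZMod 2 := fun k w =>
    if N k w < P k w then 1 else if P k w < N k w then 0 else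
      if WellOrderingRel w (-w) then 1 else 0
  obtain ⟨w, hw, hk⟩ := borsuk_ulam_labels m s (by
    intro k w hw
    have h11 : (1 : ZMod 2) + 1 = 0 := rfl
    simp only [s, hPN, hNP, neg_neg]
    rcases lt_trichotomy (N k w) (P k w) with h | h | h
    · simp [h, h.not_gt, h11]
    · have hne : w ≠ -w := by
        intro h'
        apply hw
        funext j
        have := congrFun h' j
        simp only [Pi.neg_apply] at this
        simp only [Pi.zero_apply]
        linarith
      simp only [h, lt_irrefl, if_false]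
      rcases trichotomous_of WellOrderingRel w (-w) with h' | h' | h'
      · rw [if_pos h', if_neg (asymm h'), h11]
      · exact absurd h' hne
      · rw [if_pos h', if_neg (asymm h'), zero_add]
    · simp [h, h.not_gt])
  refine ⟨w, hw, fun k => ?_⟩
  have hcont : ∀ x, Continuous fun v : Fin (m + 1) → ℝ => φ x ⬝ᵥ v := fun x => by
    simp only [dotProduct]; fun_prop
  have hP : ∀ᶠ v in nhds w, P k w ≤ P k v := by
    have : ∀ᶠ v in nhds w, ∀ x ∈ {x ∈ X k | 0 < φ x ⬝ᵥ w}, 0 < φ x ⬝ᵥ v := by
      rw [Filter.eventually_all_finset]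
      intro x hx
      exact (hcont x).continuousAt.eventually (lt_mem_nhds (mem_filter.1 hx).2)
    filter_upwards [this] with v hv
    exact card_le_card fun x hx => mem_filter.2 ⟨(mem_filter.1 hx).1, hv x hx⟩
  have hN : ∀ᶠ v in nhds w, N k w ≤ N k v := by
    have : ∀ᶠ v in nhds w, ∀ x ∈ {x ∈ X k | φ x ⬝ᵥ w < 0}, φ x ⬝ᵥ v < 0 := by
      rw [Filter.eventually_all_finset]
      intro x hx
      exact (hcont x).continuousAt.eventually (gt_mem_nhds (mem_filter.1 hx).2)
    filter_upwards [this] with v hv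
    exact card_le_card fun x hx => mem_filter.2 ⟨(mem_filter.1 hx).1, hv x hx⟩
  constructor
  · by_contra h
    apply hk k
    change ¬ 2 * P k w ≤ #(X k) at h
    filter_upwards [hP] with v hv
    have h1 := hsum k v
    have h2 := hsum k w
    simp only [s]
    rw [if_pos (by omega), if_pos (by omega)]
  · by_contra h
    apply hk k
    change ¬ 2 * N k w ≤ #(X k) at h
    filter_upwards [hN] with v hv
    have h1 := hsum k v
    have h2 := hsum k w
    simp only [s]
    rw [if_neg (by omega), if_pos (by omega), if_neg (by omega), if_pos (by omega)]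

/-- Polynomial ham sandwich theorem for finite sets. -/
theorem ham_poly {α κ : Type*} [Fintype κ] (k t : ℕ) (hκ : Fintype.card κ < (t + 1) ^ k)
    (π : α → Fin k → ℝ) (X : κ → Finset α) :
    ∃ h : MvPolynomial (Fin k) ℝ, h ≠ 0 ∧ h.totalDegree ≤ k * t ∧ ∀ j,
      2 * #{x ∈ X j | 0 < eval (π x) h} ≤ #(X j) ∧ 2 * #{x ∈ X j | eval (π x) h < 0} ≤ #(X j) := by
  classical
  obtain ⟨e⟩ : Nonempty (Fin (Fintype.card κ + 1) ↪ (Fin k → Fin (t + 1))) := by
    apply Function.Embedding.nonempty_of_card_le
    simpa using hκ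
  let ex : Fin (Fintype.card κ + 1) → (Fin k →₀ ℕ) :=
    fun a => Finsupp.equivFunOnFinite.symm fun s => (e a s : ℕ)
  have hex : Function.Injective ex := by
    intro a b h
    apply e.injective
    funext s
    have := DFunLike.congr_fun h s
    simp only [ex, Finsupp.equivFunOnFinite_symm_apply_apply] at this
    exact Fin.ext this
  obtain ⟨w, hw, hk⟩ := ham_fin (Fintype.card κ)
    (fun x a => eval (π x) (monomial (ex a) (1 : ℝ))) (fun j => X ((Fintype.equivFin κ).symm j))
  refine ⟨∑ a, monomial (ex a) (w a), ?_, ?_, fun j => ?_⟩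
  · intro h
    apply hw
    funext a
    have h1 := congrArg (coeff (ex a)) h
    simpa only [coeff_sum, coeff_monomial, hex.eq_iff, sum_ite_eq', mem_univ, if_true,
      coeff_zero, Pi.zero_apply] using h1
  · apply totalDegree_finsetSum_le
    intro a _
    refine (totalDegree_monomial_le _ _).trans ?_
    rw [Finsupp.sum_fintype _ _ (fun _ => rfl)]
    calc ∑ i, id (ex a i) ≤ ∑ _i : Fin k, t := by
          apply sum_le_sum
          intro i _
          simp only [ex, Finsupp.equivFunOnFinite_symm_apply_apply, id]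
          exact Nat.lt_succ_iff.1 (e a i).2
      _ = k * t := by simp
  · have h1 := hk (Fintype.equivFin κ j)
    simp only [Equiv.symm_apply_apply] at h1
    have key : ∀ x, eval (π x) (∑ a, monomial (ex a) (w a)) =
        (fun a => eval (π x) (monomial (ex a) (1 : ℝ))) ⬝ᵥ w := by
      intro x
      simp only [map_sum, dotProduct, eval_monomial]
      exact sum_congr rfl fun a _ => by ring
    simp only [key]
    exact h1

/-- The sign attached to a Boolean. -/
def sg (b : Bool) : ℝ := if b then 1 else -1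

lemma sg_true : sg true = 1 := rfl

lemma sg_false : sg false = -1 := rfl

/-- Polynomial partitioning. -/
theorem poly_partition {α : Type*} (k t s : ℕ) (hst : 2 ^ s ≤ (t + 1) ^ k)
    (π : α → Fin k → ℝ) (X : Finset α) :
    ∃ h : Fin s → MvPolynomial (Fin k) ℝ, (∀ i, h i ≠ 0 ∧ (h i).totalDegree ≤ k * t) ∧
      ∀ σ : Fin s → Bool,
        2 ^ s * #{x ∈ X | ∀ i, 0 < sg (σ i) * eval (π x) (h i)} ≤ #X := by
  classical
  induction s with
  | zero => exact ⟨Fin.elim0, fun i => i.elim0, fun σ => by simp⟩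
  | succ s ih =>
    obtain ⟨h, hh, hσ⟩ := ih (le_trans (Nat.pow_le_pow_right two_pos s.le_succ) hst)
    obtain ⟨g, hg0, hgd, hg⟩ := ham_poly (κ := Fin s → Bool) k t
      (by
        simp only [Fintype.card_fun, Fintype.card_bool, Fintype.card_fin]
        exact lt_of_lt_of_le (Nat.pow_lt_pow_right one_lt_two s.lt_succ_self) hst) π
      (fun σ => {x ∈ X | ∀ i, 0 < sg (σ i) * eval (π x) (h i)})
    refine ⟨Fin.cons g h, ?_, fun σ => ?_⟩
    · intro i
      refine Fin.cases ?_ (fun i => ?_) i
      · exact ⟨hg0, hgd⟩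
      · exact hh i
    · have h1 := hσ (Fin.tail σ)
      have h2 := hg (Fin.tail σ)
      simp only [filter_filter] at h2
      have h3 : 2 * #{x ∈ X | ∀ i, 0 < sg (σ i) *
          eval (π x) ((Fin.cons g h : Fin (s + 1) → MvPolynomial (Fin k) ℝ) i)} ≤
          #{x ∈ X | ∀ i, 0 < sg (Fin.tail σ i) * eval (π x) (h i)} := by
        simp only [Fin.forall_fin_succ, Fin.cons_zero, Fin.cons_succ]
        cases hσ0 : σ 0
        · refine le_trans (le_of_eq ?_) h2.2
          congr 2
          ext x
          simp [sg_false, Fin.tail, and_comm]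
        · refine le_trans (le_of_eq ?_) h2.1
          congr 2
          ext x
          simp [sg_true, Fin.tail, and_comm]
      calc _ = 2 ^ s * (2 * _) := by rw [pow_succ, mul_assoc]
        _ ≤ 2 ^ s * _ := Nat.mul_le_mul_left _ h3
        _ ≤ _ := h1

end Pool.Agent.Lib.PolyPart
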