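import Pool.Agent.Lib.PolyPart.Relation

/-!
The number of strict sign patterns of polynomials on a real hypersurface.
-/

namespace Pool.Agent.Lib.PolyPart

open Finset MvPolynomial

variable {n : ℕ}

lemma exists_strictFDeriv (p : MP n) (x : Fin n → ℝ) :
    ∃ L : (Fin n → ℝ) →L[ℝ] ℝ, HasStrictFDerivAt (fun z => eval z p) L x ∧
      ∀ i, L (Pi.single i 1) = eval x (pderiv i p) := by
  induction p using MvPolynomial.induction_on with
  | C a => exact ⟨0, by simpa using hasStrictFDerivAt_const a x, by simp⟩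
  | add p q hp hq =>
    obtain ⟨L, h1, h2⟩ := hp
    obtain ⟨L', h1', h2'⟩ := hq
    refine ⟨L + L', ?_, fun i => by simp [h2, h2']⟩
    simp only [map_add]
    exact h1.add h1'
  | mul_X p j hp =>
    obtain ⟨L, h1, h2⟩ := hp
    have h3 : HasStrictFDerivAt (fun z : Fin n → ℝ => z j)
        (ContinuousLinearMap.proj (R := ℝ) (φ := fun _ : Fin n => ℝ) j) x :=
      (ContinuousLinearMap.proj (R := ℝ) (φ := fun _ : Fin n => ℝ) j).hasStrictFDerivAt
    refine ⟨_, by simp only [map_mul, eval_X]; exact h1.mul h3, fun i => ?_⟩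
    rw [pderiv_mul]
    simp only [_root_.add_apply, _root_.smul_apply, h2,
      ContinuousLinearMap.proj_apply, map_add, map_mul, eval_X, smul_eq_mul, pderiv_X]
    by_cases h : i = j
    · subst h; simp; ring
    · simp [Pi.single_eq_of_ne (Ne.symm h)]; ring

lemma totalDegree_pderiv_add_one_le (p : MP n) (s : Fin n) (h : pderiv s p ≠ 0) :
    (pderiv s p).totalDegree + 1 ≤ p.totalDegree := by
  obtain ⟨m, hm, hm'⟩ := exists_mem_eq_sup (pderiv s p).support (support_nonempty.2 h)
    (fun s : Fin n →₀ ℕ => s.sum fun _ e => e)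
  rw [totalDegree, hm']
  rw [mem_support_iff, coeff_pderiv] at hm
  have h1 : m + Finsupp.single s 1 ∈ p.support := mem_support_iff.2 (left_ne_zero_of_mul hm)
  refine le_trans ?_ (le_totalDegree h1)
  rw [Finsupp.sum_add_index' (fun _ => rfl) (fun _ _ _ => rfl), Finsupp.sum_single_index rfl]

lemma totalDegree_pderiv_le' (p : MP n) (s : Fin n) : (pderiv s p).totalDegree ≤ p.totalDegree := by
  by_cases h : pderiv s p = 0
  · simp [h]
  · have := totalDegree_pderiv_add_one_le p s h
    omega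

lemma exists_pderiv_ne_zero (p : MP n) (h : p.totalDegree ≠ 0) : ∃ s, pderiv s p ≠ 0 := by
  by_contra hcon
  push Not at hcon
  apply h
  rw [totalDegree_eq_zero_iff]
  intro m hm s
  by_contra hs
  have h1 := congrArg (coeff (m - Finsupp.single s 1)) (hcon s)
  rw [coeff_pderiv, tsub_add_cancel_of_le (by rw [Finsupp.single_le_iff]; omega),
    coeff_zero] at h1
  rcases mul_eq_zero.1 h1 with h2 | h2
  · exact mem_support_iff.1 hm h2
  · exact absurd h2 (by positivity)

variable {ι : Type*} [Fintype ι]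

lemma exists_critical_on (q : MP n) (f : ι → MP n) (R : ℝ) (x₀ : Fin n → ℝ)
    (hq : eval x₀ q = 0) (hR : ∑ s, x₀ s ^ 2 < R) (hx₀ : ∀ i, eval x₀ (f i) ≠ 0) :
    ∃ δ > 0, ∀ y : Fin n → ℝ, (∀ s, |y s| < δ) → ∃ x : Fin n → ℝ, eval x q = 0 ∧
      (∀ i, 0 < eval x₀ (f i) * eval x (f i)) ∧ ∃ a b : ℝ, (a, b) ≠ 0 ∧
      ∀ s, a * eval x (pderiv s q) +
        b * (eval x (pderiv s ((C R - ∑ s, X s ^ 2) * ∏ i, f i)) - y s) = 0 := by
  set g : MP n := (C R - ∑ s, X s ^ 2) * ∏ i, f i with hg
  set w : ℝ := ∏ i, eval x₀ (f i) with hw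
  have hw0 : w ≠ 0 := prod_ne_zero_iff.2 fun i _ => hx₀ i
  have hG : ∀ x : Fin n → ℝ, w * eval x g =
      (R - ∑ s, x s ^ 2) * ∏ i, (eval x₀ (f i) * eval x (f i)) := by
    intro x
    simp only [hg, hw, map_mul, map_sub, eval_C, map_sum, map_pow, eval_X, map_prod,
      prod_mul_distrib]
    ring
  have hG0 : 0 < w * eval x₀ g := by
    rw [hG]
    exact mul_pos (by linarith) (prod_pos fun i _ => mul_self_pos.2 (hx₀ i))
  have hR0 : 0 < R := lt_of_le_of_lt (sum_nonneg fun s _ => sq_nonneg _) hR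
  set A : ℝ := |w| * (n * (R + 1)) + 1 with hA
  have hA0 : 0 < A := by positivity
  refine ⟨w * eval x₀ g / (2 * A), by positivity, ?_⟩
  intro y hy
  set δ := w * eval x₀ g / (2 * A) with hδ
  have hδ0 : 0 < δ := by positivity
  let S : Set (Fin n → ℝ) :=
    {x | eval x q = 0 ∧ ∑ s, x s ^ 2 ≤ R ∧ ∀ i, 0 ≤ eval x₀ (f i) * eval x (f i)}
  have hbd : ∀ x : Fin n → ℝ, ∑ s, x s ^ 2 ≤ R → ∀ s, |x s| ≤ R + 1 := by
    intro x hx s
    have h1 : x s ^ 2 ≤ R :=
      (single_le_sum (f := fun s => x s ^ 2) (fun s _ => sq_nonneg _) (mem_univ s)).trans hx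
    rw [abs_le]
    constructor <;> nlinarith
  have hSclosed : IsClosed S := by
    apply IsClosed.inter
    · exact isClosed_eq q.continuous_eval continuous_const
    apply IsClosed.inter
    · change IsClosed {x : Fin n → ℝ | ∑ s, x s ^ 2 ≤ R}
      exact isClosed_le (by fun_prop) continuous_const
    · change IsClosed {x : Fin n → ℝ | ∀ i, 0 ≤ eval x₀ (f i) * eval x (f i)}
      rw [Set.ofPred_forall]
      exact isClosed_iInter fun i =>
        isClosed_le continuous_const (continuous_const.mul (f i).continuous_eval)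
  have hScomp : IsCompact S := by
    refine (isCompact_univ_pi fun _ : Fin n =>
      isCompact_Icc (a := -(R + 1)) (b := R + 1)).of_isClosed_subset hSclosed ?_
    intro x hx s _
    exact abs_le.1 (hbd x hx.2.1 s)
  have hx₀S : x₀ ∈ S := ⟨hq, hR.le, fun i => mul_self_nonneg _⟩
  let p : MP n := C w * (g - ∑ s, C (y s) * X s)
  have hp : ∀ x : Fin n → ℝ, eval x p = w * eval x g - w * ∑ s, y s * x s := by
    intro x
    simp only [p, map_mul, map_sub, eval_C, map_sum, eval_X]
    ring
  have hlin : ∀ x ∈ S, |w * ∑ s, y s * x s| < δ * A := by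
    intro x hx
    have h1 : |∑ s, y s * x s| ≤ n * (δ * (R + 1)) := by
      refine (abs_sum_le_sum_abs _ _).trans ?_
      calc ∑ s, |y s * x s| ≤ ∑ _s : Fin n, δ * (R + 1) := by
            apply sum_le_sum
            intro s _
            rw [abs_mul]
            exact mul_le_mul (hy s).le (hbd x hx.2.1 s) (abs_nonneg _) hδ0.le
        _ = n * (δ * (R + 1)) := by simp
    rw [abs_mul]
    calc |w| * |∑ s, y s * x s| ≤ |w| * (n * (δ * (R + 1))) :=
          mul_le_mul_of_nonneg_left h1 (abs_nonneg _)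
      _ < δ * A := by rw [hA]; nlinarith
  have hδA : δ * A = w * eval x₀ g / 2 := by rw [hδ]; field_simp
  obtain ⟨x, hxS, hmax⟩ := hScomp.exists_isMaxOn ⟨x₀, hx₀S⟩ p.continuous_eval.continuousOn
  have hGx : 0 < w * eval x g := by
    have h1 : eval x₀ p ≤ eval x p := hmax hx₀S
    rw [hp, hp] at h1
    have h2 := abs_lt.1 (hlin x hxS)
    have h3 := abs_lt.1 (hlin x₀ hx₀S)
    linarith [h2.1, h3.2]
  rw [hG] at hGx
  have hne1 : R - ∑ s, x s ^ 2 ≠ 0 := left_ne_zero_of_mul hGx.ne'
  have hne2 : ∀ i, eval x₀ (f i) * eval x (f i) ≠ 0 := fun i =>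
    prod_ne_zero_iff.1 (right_ne_zero_of_mul hGx.ne') i (mem_univ i)
  have hpos : ∀ i, 0 < eval x₀ (f i) * eval x (f i) := fun i =>
    lt_of_le_of_ne (hxS.2.2 i) (hne2 i).symm
  refine ⟨x, hxS.1, hpos, ?_⟩
  have hnhds : S ∈ nhdsWithin x {z | eval z q = eval x q} := by
    have hopen : IsOpen {z : Fin n → ℝ |
        ∑ s, z s ^ 2 < R ∧ ∀ i, 0 < eval x₀ (f i) * eval z (f i)} := by
      apply IsOpen.inter
      · change IsOpen {z : Fin n → ℝ | ∑ s, z s ^ 2 < R}
        exact isOpen_lt (by fun_prop) continuous_const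
      · change IsOpen {z : Fin n → ℝ | ∀ i, 0 < eval x₀ (f i) * eval z (f i)}
        rw [Set.ofPred_forall]
        exact isOpen_iInter_of_finite fun i =>
          isOpen_lt continuous_const (continuous_const.mul (f i).continuous_eval)
    refine mem_nhdsWithin.2 ⟨_, hopen, ⟨?_, hpos⟩, ?_⟩
    · exact lt_of_le_of_ne hxS.2.1 (fun h => hne1 (by rw [h, sub_self]))
    · intro z hz
      exact ⟨hz.2.trans hxS.1, hz.1.1.le, fun i => (hz.1.2 i).le⟩
  have hloc : IsLocalMaxOn (fun z => eval z p) {z | eval z q = eval x q} x :=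
    Filter.mem_of_superset hnhds fun z hz => hmax hz
  obtain ⟨L, hL, hL'⟩ := exists_strictFDeriv q x
  obtain ⟨L₁, hL₁, hL₁'⟩ := exists_strictFDeriv p x
  obtain ⟨a, b, hab, h⟩ :=
    IsLocalExtrOn.exists_multipliers_of_hasStrictFDerivAt_1d (Or.inr hloc) hL hL₁
  refine ⟨a, b * w, ?_, fun s => ?_⟩
  · intro h'
    apply hab
    simp only [Prod.mk_eq_zero] at h' ⊢
    exact ⟨h'.1, (mul_eq_zero.1 h'.2).resolve_right hw0⟩
  · have h1 := congrArg (fun T : (Fin n → ℝ) →L[ℝ] ℝ => T (Pi.single s 1)) h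
    simp only [_root_.add_apply, _root_.smul_apply, hL', hL₁',
      smul_eq_mul, _root_.zero_apply] at h1
    have hd : pderiv s p = C w * (pderiv s g - C (y s)) := by
      simp only [p, pderiv_C_mul, map_sub, map_sum, pderiv_X]
      congr 2
      rw [sum_eq_single s]
      · simp
      · intro b _ hb
        simp [hb]
      · simp
    rw [hd] at h1
    simp only [map_mul, eval_C, map_sub] at h1
    linarith

lemma card_le_smooth (m c d : ℕ) (q : MP (m + 1)) (hq0 : q ≠ 0) (hqc : q.totalDegree ≤ c)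
    (i₀ : Fin (m + 1)) (f : ι → MP (m + 1)) (hd : ∀ i, (f i).totalDegree ≤ d)
    (T : Finset (Fin (m + 1) → ℝ)) (hTq : ∀ x ∈ T, eval x q = 0)
    (hT' : ∀ x ∈ T, eval x (pderiv i₀ q) ≠ 0) (hT : ∀ x ∈ T, ∀ i, eval x (f i) ≠ 0)
    (hsep : ∀ x ∈ T, ∀ y ∈ T, (∀ i, 0 < eval x (f i) * eval y (f i)) → x = y) :
    #T ≤ c * (m * (Fintype.card ι * d + 2 * c + 2) + 2) ^ m := by
  classical
  obtain ⟨R, hR⟩ : ∃ R : ℝ, ∀ x ∈ T, ∑ s, x s ^ 2 < R := by
    obtain ⟨R, hR⟩ := (T.image fun x => ∑ s, x s ^ 2).exists_le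
    exact ⟨R + 1, fun x hx => lt_of_le_of_lt (hR _ (mem_image_of_mem _ hx)) (by linarith)⟩
  set u := pderiv i₀ q with hu
  have hud : u.totalDegree ≤ c := (totalDegree_pderiv_le' _ _).trans hqc
  let f' : Option ι → MP (m + 1) := fun o => o.elim (u * u) f
  set Φ : MP (m + 1) := (C R - ∑ s, X s ^ 2) * ∏ i, f i with hΦ
  have hΦd : Φ.totalDegree ≤ Fintype.card ι * d + 2 := by
    refine (totalDegree_mul _ _).trans ?_
    have h1 : (C R - ∑ s, X s ^ 2 : MP (m + 1)).totalDegree ≤ 2 := by
      refine (totalDegree_sub _ _).trans (max_le (by simp) ?_)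
      exact totalDegree_finsetSum_le fun s _ => by simp
    have h2 : (∏ i, f i).totalDegree ≤ Fintype.card ι * d := by
      refine (totalDegree_finsetProd _ _).trans ?_
      calc ∑ i, (f i).totalDegree ≤ ∑ _i : ι, d := sum_le_sum fun i _ => hd i
        _ = Fintype.card ι * d := by simp
    omega
  have hg : (C R - ∑ s, X s ^ 2) * ∏ o, f' o = u * u * Φ := by
    rw [Fintype.prod_option]
    simp only [f', Option.elim, hΦ]
    ring
  let G : MP (m + 1) := (pderiv i₀ u + pderiv i₀ u) * Φ + u * pderiv i₀ Φ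
  have hG : pderiv i₀ (u * u * Φ) = u * G := by
    simp only [pderiv_mul, G]; ring
  have hGd : G.totalDegree ≤ Fintype.card ι * d + c + 2 := by
    refine (totalDegree_add _ _).trans (max_le ?_ ?_)
    · refine (totalDegree_mul _ _).trans ?_
      have := (totalDegree_add (pderiv i₀ u) (pderiv i₀ u)).trans
        (max_le ((totalDegree_pderiv_le' u i₀).trans hud) ((totalDegree_pderiv_le' u i₀).trans hud))
      omega
    · refine (totalDegree_mul _ _).trans ?_
      have := totalDegree_pderiv_le' Φ i₀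
      omega
  let F : Fin m → MP (m + 1) := fun j =>
    pderiv (i₀.succAbove j) (u * u * Φ) - G * pderiv (i₀.succAbove j) q
  have hF : ∀ j, (F j).totalDegree ≤ Fintype.card ι * d + 2 * c + 2 := by
    intro j
    refine (totalDegree_sub _ _).trans (max_le ?_ ?_)
    · refine (totalDegree_pderiv_le' _ _).trans ((totalDegree_mul _ _).trans ?_)
      have := totalDegree_mul u u
      omega
    · refine (totalDegree_mul _ _).trans ?_
      have := totalDegree_pderiv_le' q (i₀.succAbove j)
      omega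
  obtain ⟨y', hN⟩ := (nice_bot (m + 1)).step q hq0 hqc
  rw [one_mul, aeval_X_left_apply] at hN
  have hcrit := fun (x : T) => exists_critical_on q f' R x.1 (hTq x.1 x.2) (hR x.1 x.2) (by
    rintro (_ | i)
    · simp only [f', Option.elim, map_mul]
      exact mul_self_ne_zero.2 (hT' x.1 x.2)
    · exact hT x.1 x.2 i)
  choose δ hδ hδ' using hcrit
  obtain ⟨ε, hε, hεδ⟩ : ∃ ε > 0, ∀ x : T, ε ≤ δ x := by
    rcases isEmpty_or_nonempty T with h | h
    · exact ⟨1, one_pos, fun x => h.elim x⟩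
    · obtain ⟨x, hx⟩ := Finite.exists_min δ
      exact ⟨δ x, hδ x, hx⟩
  apply hN.fibre F _ _ hF hε
  intro v hv
  choose z hzq hz hz' using fun x : T => hδ' x (Fin.insertNth i₀ 0 v) (fun s => by
    refine Fin.succAboveCases i₀ ?_ (fun j => ?_) s
    · simpa using hδ x
    · simpa using (hv j).trans_le (hεδ x))
  have hzinj : Function.Injective z := by
    intro x x' h
    apply Subtype.ext
    apply hsep _ x.2 _ x'.2
    intro i
    have h1 := hz x (some i)
    have h2 := hz x' (some i)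
    simp only [f', Option.elim] at h1 h2
    rw [← h] at h2
    by_contra hcon
    push Not at hcon
    nlinarith [mul_pos h1 h2, mul_nonneg (neg_nonneg.2 hcon) (mul_self_nonneg (eval (z x) (f i)))]
  refine ⟨univ.image z, ?_, ?_⟩
  · rw [card_image_of_injective _ hzinj]; simp
  · intro x hx
    obtain ⟨x', -, rfl⟩ := mem_image.1 hx
    refine ⟨Van.sup (fun g hg => by rw [Ideal.mem_bot.1 hg, map_zero]) (hzq x'), fun j => ?_⟩
    obtain ⟨a, b, hab, h⟩ := hz' x'
    rw [hg] at h
    have hu0 : eval (z x') u ≠ 0 := by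
      have := hz x' none
      simp only [f', Option.elim, map_mul] at this
      intro h0
      rw [h0] at this
      simp at this
    have h0 := h i₀
    have hj := h (i₀.succAbove j)
    rw [hG, ← hu, Fin.insertNth_apply_same, map_mul] at h0
    rw [Fin.insertNth_apply_succAbove] at hj
    have ha : a = -(b * eval (z x') G) := by
      apply mul_right_cancel₀ hu0
      linarith
    have hb : b ≠ 0 := by
      rintro rfl
      apply hab
      simp [ha]
    apply mul_left_cancel₀ hb
    simp only [F, map_sub, map_mul] at hj ⊢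
    rw [ha] at hj
    linarith

/-- Points of a hypersurface with pairwise different strict sign patterns. -/
theorem card_le_on_hypersurface (m c d : ℕ) (q : MP (m + 1)) (hq0 : q ≠ 0)
    (hqc : q.totalDegree ≤ c) (f : ι → MP (m + 1)) (hd : ∀ i, (f i).totalDegree ≤ d)
    (T : Finset (Fin (m + 1) → ℝ)) (hTq : ∀ x ∈ T, eval x q = 0)
    (hT : ∀ x ∈ T, ∀ i, eval x (f i) ≠ 0)
    (hsep : ∀ x ∈ T, ∀ y ∈ T, (∀ i, 0 < eval x (f i) * eval y (f i)) → x = y) :
    #T ≤ c * c * (m * (Fintype.card ι * d + 2 * c + 2) + 2) ^ m := by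
  classical
  induction c generalizing q T with
  | zero =>
    rw [Nat.le_zero, totalDegree_eq_zero_iff_eq_C] at hqc
    rcases T.eq_empty_or_nonempty with rfl | ⟨x, hx⟩
    · simp
    · have := hTq x hx
      rw [hqc, eval_C] at this
      rw [this, map_zero] at hqc
      exact absurd hqc hq0
  | succ c ih =>
    have hmono : (m * (Fintype.card ι * d + 2 * c + 2) + 2) ^ m ≤
        (m * (Fintype.card ι * d + 2 * (c + 1) + 2) + 2) ^ m := by
      apply Nat.pow_le_pow_left
      exact Nat.add_le_add_right (Nat.mul_le_mul_left _ (by omega)) _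
    by_cases h0 : q.totalDegree = 0
    · refine (ih q hq0 (by omega) T hTq hT hsep).trans ?_
      exact Nat.mul_le_mul (by nlinarith) hmono
    obtain ⟨i₀, hi₀⟩ := exists_pderiv_ne_zero q h0
    have h1 := card_le_smooth m (c + 1) d q hq0 hqc i₀ f hd
      (T.filter fun x => ¬ eval x (pderiv i₀ q) = 0) (fun x hx => hTq x (mem_filter.1 hx).1)
      (fun x hx => (mem_filter.1 hx).2) (fun x hx => hT x (mem_filter.1 hx).1)
      (fun x hx y hy => hsep x (mem_filter.1 hx).1 y (mem_filter.1 hy).1)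
    have h2 := ih (pderiv i₀ q) hi₀
      (by have := totalDegree_pderiv_add_one_le q i₀ hi₀; omega)
      (T.filter fun x => eval x (pderiv i₀ q) = 0) (fun x hx => (mem_filter.1 hx).2)
      (fun x hx => hT x (mem_filter.1 hx).1)
      (fun x hx y hy => hsep x (mem_filter.1 hx).1 y (mem_filter.1 hy).1)
    rw [← card_filter_add_card_filter_not (s := T) (fun x => eval x (pderiv i₀ q) = 0)]
    have h3 := h2.trans (Nat.mul_le_mul_left (c * c) hmono)
    nlinarith [Nat.zero_le ((m * (Fintype.card ι * d + 2 * (c + 1) + 2) + 2) ^ m)]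

end Pool.Agent.Lib.PolyPart
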