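import Pool.Agent.Lib.PolyPart.Tree

/-!
Incidence bounds from the partition tree.
-/

namespace Pool.Agent.Lib.PolyPart

open Finset MvPolynomial

lemma sum_descFactorial_le {α δ : Type*} [DecidableEq α] (t v : ℕ) (A : Finset α) (D : Finset δ)
    (N : δ → Finset α) (hN : ∀ d ∈ D, N d ⊆ A)
    (hv : ∀ Z : Finset α, #Z = t → #{d ∈ D | Z ⊆ N d} ≤ v) :
    ∑ d ∈ D, (#(N d)).descFactorial t ≤ v * #A ^ t := by
  have h1 : ∀ d ∈ D, (#(N d)).choose t = ∑ Z ∈ powersetCard t A, if Z ⊆ N d then 1 else 0 := by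
    intro d hd
    rw [← card_powersetCard, ← card_filter]
    congr 1
    ext Z
    simp only [mem_powersetCard, mem_filter]
    exact ⟨fun h => ⟨⟨h.1.trans (hN d hd), h.2⟩, h.1⟩, fun h => ⟨h.2, h.1.2⟩⟩
  have h2 : ∑ d ∈ D, (#(N d)).choose t ≤ v * (#A).choose t := by
    rw [sum_congr rfl h1, sum_comm, ← card_powersetCard, mul_comm, ← smul_eq_mul]
    apply sum_le_card_nsmul
    intro Z hZ
    rw [← card_filter]
    exact hv Z (mem_powersetCard.1 hZ).2
  simp only [Nat.descFactorial_eq_factorial_mul_choose]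
  rw [← mul_sum]
  calc t.factorial * ∑ d ∈ D, (#(N d)).choose t ≤ t.factorial * (v * (#A).choose t) :=
        Nat.mul_le_mul_left _ h2
    _ = v * (#A).descFactorial t := by rw [Nat.descFactorial_eq_factorial_mul_choose]; ring
    _ ≤ _ := Nat.mul_le_mul_left _ (Nat.descFactorial_le_pow _ _)

lemma le_add_descFactorial (j t : ℕ) : j ≤ t + j.descFactorial (t + 1) := by
  by_cases h : j ≤ t
  · omega
  · obtain ⟨i, rfl⟩ : ∃ i, j = i + 1 := ⟨j - 1, by omega⟩
    rw [Nat.succ_descFactorial_succ]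
    have : 0 < i.descFactorial t := Nat.descFactorial_pos.2 (by omega)
    nlinarith

variable {n : ℕ}

/-- `s` is nondegenerate at `x` in the leaf `τ`. -/
def Tree.ND (T : Tree n) (τ : T.ι) (x : Fin n → ℝ) (s : MP n) : Prop :=
  x ∈ T.A τ ∧ ∀ J ∈ T.J τ, ¬ DegAt J x s

/-- `s` is nondegenerate at `x` in some leaf. -/
def Tree.Hard (T : Tree n) (x : Fin n → ℝ) (s : MP n) : Prop := ∃ τ, T.ND τ x s

section

variable {T : Tree n} {k : ℕ} {I : Ideal (MP n)} {X : Finset (Fin n → ℝ)} {θ K L : ℝ}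
  {δ : Type*}

lemma Tree.Ok.cross (h : T.Ok k I X θ K L) (s : MP n) (hs : s.totalDegree ≤ 2)
    (N : T.ι → Finset (Fin n → ℝ)) (hN : ∀ τ, ∀ x ∈ N τ, eval x s = 0 ∧ T.ND τ x s) :
    ∑ τ, ind (N τ).Nonempty 1 ≤ max 1 (K * θ) * L := by
  refine le_trans ?_ (mul_le_mul_of_nonneg_left (h.sumS s hs) (by positivity))
  rw [mul_sum]
  apply sum_le_sum
  intro τ _
  rw [← ind_mul]
  have h1 := h.R1 τ
  have h2 := h.RW τ
  have h3 : 1 ≤ max 1 (K * θ) * (T.R τ / T.W τ) := by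
    rw [← mul_div_assoc, le_div_iff₀ (by linarith), one_mul, mul_comm]
    exact h.upper τ
  refine ind_mono ?_ (by linarith) h3
  rintro ⟨x, hx⟩
  exact ⟨x, (hN τ x hx).2.1, (hN τ x hx).1, (hN τ x hx).2.2⟩

lemma Tree.Ok.card_pow_le (h : T.Ok k I X θ K L) (τ : T.ι) (t : ℕ) :
    (#(T.A τ) : ℝ) ^ t ≤ (#X : ℝ) ^ t / T.W τ ^ t := by
  have h1 := h.R1 τ
  have h2 := h.RW τ
  rw [← div_pow]
  apply pow_le_pow_left₀ (by positivity)
  rw [le_div_iff₀ (by linarith)]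
  exact h.size τ

lemma card_le_sum_card {α ι : Type*} [Fintype ι] [DecidableEq α] (Y : Finset α)
    (N : ι → Finset α) (h : ∀ x ∈ Y, ∃ τ, x ∈ N τ) : #Y ≤ ∑ τ, #(Y ∩ N τ) := by
  refine le_trans (card_le_card ?_) card_biUnion_le
  intro x hx
  obtain ⟨τ, hτ⟩ := h x hx
  exact mem_biUnion.2 ⟨τ, mem_univ _, mem_inter.2 ⟨hx, hτ⟩⟩

/-- Bound from bounded codegrees. -/
theorem Tree.Ok.light (h : T.Ok k I X θ K L) (hK : 0 ≤ K) (t v : ℕ) (D : Finset δ)
    (s : δ → MP n) (hs : ∀ d, (s d).totalDegree ≤ 2) (N : δ → Finset (Fin n → ℝ))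
    (hN : ∀ d ∈ D, ∀ x ∈ N d, eval x (s d) = 0 ∧ T.Hard x (s d))
    (hv : ∀ Z : Finset (Fin n → ℝ), #Z = t + 1 → #{d ∈ D | Z ⊆ N d} ≤ v)
    (ω : ℝ) (hω : 0 < ω) (hωW : ∀ τ, θ * T.R τ ≤ T.W τ → ω ≤ T.W τ) :
    ∑ d ∈ D, (#(N d) : ℝ) ≤
      (K + t) * (max 1 (K * θ) * L) * #D + v * (#X : ℝ) ^ (t + 1) / ω ^ t * L := by
  classical
  let M : T.ι → δ → Finset (Fin n → ℝ) := fun τ d => {x ∈ N d | T.ND τ x (s d)}
  have hMA : ∀ τ d, M τ d ⊆ T.A τ := fun τ d x hx => (mem_filter.1 hx).2.1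
  let g : T.ι → δ → ℝ := fun τ d =>
    ind (θ * T.R τ ≤ T.W τ) ((#(M τ d)).descFactorial (t + 1) : ℕ)
  have h1 : ∀ d ∈ D, (#(N d) : ℝ) ≤ (K + t) * (max 1 (K * θ) * L) + ∑ τ, g τ d := by
    intro d hd
    have a1 : #(N d) ≤ ∑ τ, #(N d ∩ M τ d) := card_le_sum_card _ _ fun x hx => by
      obtain ⟨τ, hτ⟩ := (hN d hd x hx).2
      exact ⟨τ, mem_filter.2 ⟨hx, hτ⟩⟩
    have a2 : ∀ τ, (#(N d ∩ M τ d) : ℝ) ≤ (K + t) * ind (M τ d).Nonempty 1 + g τ d := by
      intro τ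
      have b0 : (#(N d ∩ M τ d) : ℝ) ≤ #(M τ d) := by
        exact_mod_cast card_le_card inter_subset_right
      refine b0.trans ?_
      have b1 : 0 ≤ g τ d := ind_nonneg _ (by positivity)
      rcases (M τ d).eq_empty_or_nonempty with he | he
      · rw [he, ind_neg Finset.not_nonempty_empty]; simpa using b1
      · rw [ind_pos he, mul_one]
        rcases h.lower τ with hb | hb
        · simp only [g]
          rw [ind_pos hb]
          have : (#(M τ d) : ℝ) ≤ t + ((#(M τ d)).descFactorial (t + 1) : ℕ) := by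
            exact_mod_cast le_add_descFactorial _ t
          linarith
        · have : (#(M τ d) : ℝ) ≤ #(T.A τ) := by exact_mod_cast card_le_card (hMA τ d)
          have b2 : (0 : ℝ) ≤ t := by positivity
          linarith
    have a3 := h.cross (s d) (hs d) (fun τ => M τ d)
      (fun τ x hx => ⟨(hN d hd x (mem_filter.1 hx).1).1, (mem_filter.1 hx).2⟩)
    calc (#(N d) : ℝ) ≤ ∑ τ, (#(N d ∩ M τ d) : ℝ) := by exact_mod_cast a1
      _ ≤ ∑ τ, ((K + t) * ind (M τ d).Nonempty 1 + g τ d) := sum_le_sum fun τ _ => a2 τ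
      _ = (K + t) * ∑ τ, ind (M τ d).Nonempty 1 + ∑ τ, g τ d := by
          rw [sum_add_distrib, mul_sum]
      _ ≤ _ := add_le_add (mul_le_mul_of_nonneg_left a3 (by positivity)) le_rfl
  have h2 : ∀ τ, ∑ d ∈ D, g τ d ≤ v * (#X : ℝ) ^ (t + 1) / ω ^ t * (1 / T.W τ) := by
    intro τ
    have b1 := h.R1 τ
    have b2 := h.RW τ
    have b3 : 0 < T.W τ := by linarith
    by_cases hb : θ * T.R τ ≤ T.W τ
    · simp only [g, ind_pos hb]
      have a1 := sum_descFactorial_le (t + 1) v (T.A τ) D (M τ) (fun d _ => hMA τ d)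
        (fun Z hZ => le_trans (card_le_card fun d hd => mem_filter.2 ⟨(mem_filter.1 hd).1,
          (mem_filter.1 hd).2.trans (filter_subset _ _)⟩) (hv Z hZ))
      have a2 : (∑ d ∈ D, ((#(M τ d)).descFactorial (t + 1) : ℕ) : ℝ) ≤
          v * (#(T.A τ) : ℝ) ^ (t + 1) := by exact_mod_cast a1
      refine a2.trans ?_
      rw [mul_div_assoc, mul_assoc]
      apply mul_le_mul_of_nonneg_left _ (by positivity)
      refine (h.card_pow_le τ _).trans ?_
      rw [div_mul_div_comm, mul_one, pow_succ (T.W τ)]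
      apply div_le_div_of_nonneg_left (by positivity) (by positivity)
      exact mul_le_mul_of_nonneg_right (pow_le_pow_left₀ hω.le (hωW τ hb) _) b3.le
    · simp only [g, ind_neg hb, sum_const_zero]
      positivity
  calc ∑ d ∈ D, (#(N d) : ℝ) ≤ ∑ d ∈ D, ((K + t) * (max 1 (K * θ) * L) + ∑ τ, g τ d) :=
        sum_le_sum h1
    _ = (K + t) * (max 1 (K * θ) * L) * #D + ∑ τ, ∑ d ∈ D, g τ d := by
        rw [sum_add_distrib, sum_const, nsmul_eq_mul, sum_comm]; ring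
    _ ≤ _ := by
        refine add_le_add le_rfl ((sum_le_sum fun τ _ => h2 τ).trans ?_)
        rw [← mul_sum]
        exact mul_le_mul_of_nonneg_left h.sumW (by positivity)

lemma sum_descFactorial_three_le {ι : Type*} (S : Finset ι) (j : ι → ℕ) (m : ℕ)
    (h : ∑ i ∈ S, j i ≤ m) : ∑ i ∈ S, (j i).descFactorial 3 ≤ m.descFactorial 3 := by
  have key : ∀ a : ℕ, a.descFactorial 3 = a * ((a - 1) * (a - 2)) := by
    intro a; simp [Nat.descFactorial]; ring
  calc ∑ i ∈ S, (j i).descFactorial 3 ≤ ∑ i ∈ S, j i * ((m - 1) * (m - 2)) := by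
        apply sum_le_sum
        intro i hi
        have : j i ≤ m := (single_le_sum (fun _ _ => Nat.zero_le _) hi).trans h
        rw [key]
        exact Nat.mul_le_mul_left _ (Nat.mul_le_mul (by omega) (by omega))
    _ = (∑ i ∈ S, j i) * ((m - 1) * (m - 2)) := by rw [sum_mul]
    _ ≤ _ := by rw [key]; exact Nat.mul_le_mul_right _ h

lemma le_four_div_sq (j : ℕ) (a : ℝ) (ha : 4 ≤ a) (hj : a ≤ j) :
    (j : ℝ) ≤ 4 / a ^ 2 * (j.descFactorial 3 : ℕ) := by
  have h4 : 4 ≤ j := by exact_mod_cast ha.trans hj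
  obtain ⟨i, rfl⟩ : ∃ i, j = i + 4 := ⟨j - 4, by omega⟩
  have key : ((i + 4).descFactorial 3 : ℕ) = (i + 2) * ((i + 3) * (i + 4)) := by
    simp [Nat.descFactorial]
  rw [key, div_mul_eq_mul_div, le_div_iff₀ (by positivity)]
  have h1 : a ^ 2 ≤ ((i + 4 : ℕ) : ℝ) ^ 2 := pow_le_pow_left₀ (by linarith) hj 2
  push_cast at h1 ⊢
  have hi : (0 : ℝ) ≤ i := by positivity
  nlinarith [mul_le_mul_of_nonneg_left h1 (by positivity : (0 : ℝ) ≤ i + 4), mul_nonneg hi hi,
    mul_nonneg hi (mul_nonneg hi hi)]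

/-- Bound for edges covered by large conic stars. -/
theorem Tree.Ok.rich (h : T.Ok k I X θ K L) (hK : 0 ≤ K) (hL : 0 < L) (hθ : 0 < θ) (v U : ℕ)
    (hU : 0 < U) (D : Finset δ)
    (s : δ → MP n) (hs : ∀ d, (s d).totalDegree ≤ 2) (N : δ → Finset (Fin n → ℝ))
    (hN : ∀ d ∈ D, ∀ x ∈ N d, eval x (s d) = 0 ∧ T.Hard x (s d))
    (hv : ∀ Z : Finset (Fin n → ℝ), #Z = 3 → #{d ∈ D | Z ⊆ N d} ≤ v)
    (F : δ → Finset (Finset (Fin n → ℝ)))
    (hF : ∀ d ∈ D, ∀ Y ∈ F d, Y ⊆ N d ∧ #Y = U ∧ IsConic (Y : Set (Fin n → ℝ)))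
    (hFd : ∀ d ∈ D, (F d : Set (Finset (Fin n → ℝ))).PairwiseDisjoint id) :
    ∑ d ∈ D, (#(F d) * U : ℝ) ≤ 2 * ((K + 2) * (max 1 (K * θ) * L) * #D +
      64 * L ^ 2 * v * (#X : ℝ) ^ 3 / (U ^ 2 * θ ^ 2) * L) := by
  classical
  have hU' : (0 : ℝ) < U := by exact_mod_cast hU
  let M : T.ι → δ → Finset (Fin n → ℝ) := fun τ d => {x ∈ N d | T.ND τ x (s d)}
  have hMA : ∀ τ d, M τ d ⊆ T.A τ := fun τ d x hx => (mem_filter.1 hx).2.1
  let γ : T.ι → ℝ := fun τ => 64 * L ^ 2 * T.R τ ^ 2 / U ^ 2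
  let g : T.ι → δ → ℝ := fun τ d =>
    ind (θ * T.R τ ≤ T.W τ) (γ τ * ((#(M τ d)).descFactorial 3 : ℕ))
  let e : T.ι → Finset (Fin n → ℝ) → ℝ := fun τ Y =>
    ind (∃ x ∈ T.A τ, x ∈ (Y : Set (Fin n → ℝ))) (U / (2 * L) * (1 / T.R τ))
  have he0 : ∀ τ Y, 0 ≤ e τ Y := fun τ Y => ind_nonneg _ (by have := h.R1 τ; positivity)
  have h1 : ∀ d ∈ D, (#(F d) * U : ℝ) ≤
      2 * ((K + 2) * (max 1 (K * θ) * L) + ∑ τ, g τ d) := by
    intro d hd
    have a0 : ∀ τ, ∑ Y ∈ F d, #(Y ∩ M τ d) ≤ #(M τ d) := by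
      intro τ
      rw [← card_biUnion]
      · exact card_le_card (biUnion_subset.2 fun Y _ => inter_subset_right)
      · intro Y hY Y' hY' hne
        exact Disjoint.mono inter_subset_left inter_subset_left (hFd d hd hY hY' hne)
    have a1 : ∀ Y ∈ F d, (U : ℝ) ≤ ∑ τ, (#(Y ∩ M τ d) : ℝ) := by
      intro Y hY
      rw [← (hF d hd Y hY).2.1]
      exact_mod_cast card_le_sum_card Y (fun τ => M τ d) fun x hx => by
        have hx' := (hF d hd Y hY).1 hx
        obtain ⟨τ, hτ⟩ := (hN d hd x hx').2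
        exact ⟨τ, mem_filter.2 ⟨hx', hτ⟩⟩
    have a2 : ∀ τ, ∑ Y ∈ F d, (#(Y ∩ M τ d) : ℝ) ≤
        ∑ Y ∈ F d, e τ Y + ((K + 2) * ind (M τ d).Nonempty 1 + g τ d) := by
      intro τ
      have hR := h.R1 τ
      have b0 : ∑ Y ∈ F d, (#(Y ∩ M τ d) : ℝ) ≤ #(M τ d) := by exact_mod_cast a0 τ
      have b1 : 0 ≤ g τ d := ind_nonneg _ (by positivity)
      have b2 : 0 ≤ ∑ Y ∈ F d, e τ Y := sum_nonneg fun Y _ => he0 τ Y
      rcases (M τ d).eq_empty_or_nonempty with he | he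
      · rw [he, ind_neg Finset.not_nonempty_empty]
        simp only [inter_empty, card_empty, Nat.cast_zero, sum_const_zero]
        linarith
      rw [ind_pos he, mul_one]
      rcases h.lower τ with hb | hb
      swap
      · have : (#(M τ d) : ℝ) ≤ #(T.A τ) := by exact_mod_cast card_le_card (hMA τ d)
        linarith
      simp only [g]
      rw [ind_pos hb]
      set a : ℝ := U / (2 * L) * (1 / T.R τ) with ha
      have hγ : γ τ = 16 / a ^ 2 := by
        simp only [γ, ha]; field_simp; norm_num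
      have ha0 : 0 < a := by positivity
      by_cases h4 : 4 ≤ a
      · have c1 : ∀ Y ∈ F d, (#(Y ∩ M τ d) : ℝ) ≤
            e τ Y + γ τ * ((#(Y ∩ M τ d)).descFactorial 3 : ℕ) := by
          intro Y _
          have c0 : 0 ≤ γ τ * ((#(Y ∩ M τ d)).descFactorial 3 : ℕ) := by positivity
          by_cases c2 : a ≤ #(Y ∩ M τ d)
          · have c3 := le_four_div_sq _ a h4 c2
            have c4 : 4 / a ^ 2 * ((#(Y ∩ M τ d)).descFactorial 3 : ℕ) ≤
                γ τ * ((#(Y ∩ M τ d)).descFactorial 3 : ℕ) := by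
              apply mul_le_mul_of_nonneg_right _ (by positivity)
              rw [hγ]
              exact div_le_div_of_nonneg_right (by norm_num) (by positivity)
            linarith [he0 τ Y]
          · rcases (Y ∩ M τ d).eq_empty_or_nonempty with c3 | ⟨x, hx⟩
            · rw [c3]; simpa using he0 τ Y
            · have : e τ Y = a := ind_pos ⟨x, hMA τ d (mem_inter.1 hx).2, (mem_inter.1 hx).1⟩ _
              linarith
        refine (sum_le_sum c1).trans ?_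
        rw [sum_add_distrib, ← mul_sum]
        have c5 : (∑ Y ∈ F d, ((#(Y ∩ M τ d)).descFactorial 3 : ℕ) : ℝ) ≤
            ((#(M τ d)).descFactorial 3 : ℕ) := by
          exact_mod_cast sum_descFactorial_three_le _ _ _ (a0 τ)
        have c6 := mul_le_mul_of_nonneg_left c5 (show 0 ≤ γ τ by positivity)
        linarith
      · have c1 : (#(M τ d) : ℝ) ≤ (2 : ℕ) + ((#(M τ d)).descFactorial (2 + 1) : ℕ) := by
          exact_mod_cast le_add_descFactorial _ 2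
        have c2 : 1 ≤ γ τ := by
          rw [hγ, le_div_iff₀ (by positivity)]
          nlinarith
        have c3 := le_mul_of_one_le_left
          (show (0 : ℝ) ≤ ((#(M τ d)).descFactorial 3 : ℕ) by positivity) c2
        norm_num at c1 c3 ⊢
        linarith
    have a3 := h.cross (s d) (hs d) (fun τ => M τ d)
      (fun τ x hx => ⟨(hN d hd x (mem_filter.1 hx).1).1, (mem_filter.1 hx).2⟩)
    have a4 : ∀ Y ∈ F d, ∑ τ, e τ Y ≤ U / 2 := by
      intro Y hY
      simp only [e, ind_mul]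
      rw [← mul_sum]
      refine (mul_le_mul_of_nonneg_left (h.sumC _ (hF d hd Y hY).2.2) (by positivity)).trans
        (le_of_eq (by field_simp))
    have a5 : (#(F d) * U : ℝ) ≤ #(F d) * (U / 2) +
        ((K + 2) * (max 1 (K * θ) * L) + ∑ τ, g τ d) := by
      calc (#(F d) * U : ℝ) = ∑ _Y ∈ F d, (U : ℝ) := by rw [sum_const, nsmul_eq_mul]
        _ ≤ ∑ Y ∈ F d, ∑ τ, (#(Y ∩ M τ d) : ℝ) := sum_le_sum a1
        _ = ∑ τ, ∑ Y ∈ F d, (#(Y ∩ M τ d) : ℝ) := sum_comm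
        _ ≤ ∑ τ, (∑ Y ∈ F d, e τ Y + ((K + 2) * ind (M τ d).Nonempty 1 + g τ d)) :=
            sum_le_sum fun τ _ => a2 τ
        _ = ∑ Y ∈ F d, ∑ τ, e τ Y + ((K + 2) * ∑ τ, ind (M τ d).Nonempty 1 + ∑ τ, g τ d) := by
            rw [sum_add_distrib, sum_add_distrib, mul_sum, sum_comm]
        _ ≤ _ := by
            refine add_le_add ?_ (add_le_add (mul_le_mul_of_nonneg_left a3 (by positivity)) le_rfl)
            have := sum_le_card_nsmul _ _ _ a4
            rwa [nsmul_eq_mul] at this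
    linarith
  have h2 : ∀ τ, ∑ d ∈ D, g τ d ≤
      64 * L ^ 2 * v * (#X : ℝ) ^ 3 / (U ^ 2 * θ ^ 2) * (1 / T.W τ) := by
    intro τ
    have b1 := h.R1 τ
    have b2 := h.RW τ
    have b3 : 0 < T.W τ := by linarith
    by_cases hb : θ * T.R τ ≤ T.W τ
    · simp only [g, ind_pos hb]
      have a1 := sum_descFactorial_le 3 v (T.A τ) D (M τ) (fun d _ => hMA τ d)
        (fun Z hZ => le_trans (card_le_card fun d hd => mem_filter.2 ⟨(mem_filter.1 hd).1,
          (mem_filter.1 hd).2.trans (filter_subset _ _)⟩) (hv Z hZ))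
      have a2 : (∑ d ∈ D, ((#(M τ d)).descFactorial 3 : ℕ) : ℝ) ≤
          v * (#(T.A τ) : ℝ) ^ 3 := by exact_mod_cast a1
      rw [← mul_sum]
      have a3 := a2.trans (mul_le_mul_of_nonneg_left (h.card_pow_le τ 3) (by positivity))
      refine (mul_le_mul_of_nonneg_left a3 (by positivity)).trans ?_
      have a4 : (θ * T.R τ) ^ 2 ≤ T.W τ ^ 2 := pow_le_pow_left₀ (by positivity) hb 2
      have a5 : γ τ * (v * ((#X : ℝ) ^ 3 / T.W τ ^ 3)) =
          64 * L ^ 2 * v * (#X : ℝ) ^ 3 / (U ^ 2 * θ ^ 2) * (1 / T.W τ) *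
            ((θ * T.R τ) ^ 2 / T.W τ ^ 2) := by
        simp only [γ]; field_simp
      rw [a5]
      exact mul_le_of_le_one_right (by positivity) ((div_le_one (by positivity)).2 a4)
    · simp only [g, ind_neg hb, sum_const_zero]
      positivity
  refine (sum_le_sum h1).trans ?_
  rw [← mul_sum]
  apply mul_le_mul_of_nonneg_left _ zero_le_two
  rw [sum_add_distrib, sum_const, nsmul_eq_mul, sum_comm, mul_comm]
  refine add_le_add le_rfl ((sum_le_sum fun τ _ => h2 τ).trans ?_)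
  rw [← mul_sum]
  exact mul_le_mul_of_nonneg_left h.sumW (by positivity)

end

end Pool.Agent.Lib.PolyPart
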