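import Mathlib

/-!
Ideals whose quotient is free over a polynomial ring in affine forms, with degree control.
-/

namespace Pool.Agent.Lib.PolyPart

open Finset MvPolynomial

/-- Real polynomials in `n` variables. -/
abbrev MP (n : ℕ) := MvPolynomial (Fin n) ℝ

lemma totalDegree_aeval_le {n k : ℕ} (f : Fin k → MP n) (D : ℕ)
    (hf : ∀ i, (f i).totalDegree ≤ D) (p : MP k) :
    (aeval f p).totalDegree ≤ D * p.totalDegree := by
  conv_lhs => rw [p.as_sum]
  rw [map_sum]
  apply totalDegree_finsetSum_le
  intro m hm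
  rw [aeval_monomial]
  refine (totalDegree_mul _ _).trans ?_
  have h0 : (algebraMap ℝ (MP n) (coeff m p)).totalDegree = 0 := totalDegree_C _
  rw [h0, zero_add, Finsupp.prod]
  refine (totalDegree_finsetProd _ _).trans ?_
  calc ∑ i ∈ m.support, (f i ^ m i).totalDegree ≤ ∑ i ∈ m.support, D * m i := by
        apply sum_le_sum
        intro i _
        refine (totalDegree_pow _ _).trans ?_
        rw [mul_comm]
        exact Nat.mul_le_mul_right _ (hf i)
    _ = D * ∑ i ∈ m.support, m i := by rw [mul_sum]
    _ ≤ _ := Nat.mul_le_mul_left _ (le_totalDegree hm)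

lemma eval_aeval' {n k : ℕ} (f : Fin k → MP n) (x : Fin n → ℝ) (p : MP k) :
    eval x (aeval f p) = eval (fun i => eval x (f i)) p := by
  induction p using MvPolynomial.induction_on with
  | C a => simp
  | add p q hp hq => simp only [map_add, hp, hq]
  | mul_X p i hp => simp only [map_mul, hp, aeval_X, eval_X]

/-- The quotient by `I` is free of rank at most `c` over the polynomial ring in the affine
forms `y`, with control of degrees. -/
def Nice (n k c : ℕ) (I : Ideal (MP n)) (y : Fin k → MP n) : Prop :=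
  (∀ i, (y i).totalDegree ≤ 1) ∧ ∃ (ι : Type) (_ : Fintype ι) (e : ι → MP n),
    Fintype.card ι ≤ c ∧
    (∀ g : MP n, ∃ p : ι → MP k, (∀ i, (p i).totalDegree ≤ g.totalDegree) ∧
      g - ∑ i, aeval y (p i) * e i ∈ I) ∧
    (∀ p : ι → MP k, ∑ i, aeval y (p i) * e i ∈ I → ∀ i, p i = 0)

lemma nice_bot (n : ℕ) : Nice n n 1 ⊥ X := by
  refine ⟨fun i => by simp, Unit, inferInstance, fun _ => 1, by simp, fun g => ?_, ?_⟩
  · exact ⟨fun _ => g, fun _ => le_rfl, by simp⟩
  · intro p hp i
    simpa using hp

variable {n k c : ℕ} {I : Ideal (MP n)}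

lemma Nice.mono {y : Fin k → MP n} (h : Nice n k c I y) {c' : ℕ} (hc : c ≤ c') :
    Nice n k c' I y := by
  obtain ⟨h1, ι, _, e, h2, h3⟩ := h
  exact ⟨h1, ι, inferInstance, e, h2.trans hc, h3⟩

lemma Nice.nzd {y : Fin k → MP n} (h : Nice n k c I y) {p : MP k} (hp : p ≠ 0) {Ψ : MP n}
    (hΨ : aeval y p * Ψ ∈ I) : Ψ ∈ I := by
  obtain ⟨-, ι, _, e, -, h3, h4⟩ := h
  obtain ⟨ψ, -, hψ⟩ := h3 Ψ
  have h5 : ∑ i, aeval y (p * ψ i) * e i ∈ I := by
    have := I.sub_mem hΨ (I.mul_mem_left (aeval y p) hψ)
    convert this using 1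
    simp only [map_mul, mul_sub, mul_sum, mul_assoc]
    ring
  have h6 : ∀ i, ψ i = 0 := fun i => (mul_eq_zero.1 (h4 _ h5 i)).resolve_left hp
  simpa [h6] using hψ

lemma Nice.subst {y : Fin k → MP n} (h : Nice n k c I y) (f g : Fin k → MP k)
    (hf : ∀ i, (f i).totalDegree ≤ 1) (hg : ∀ i, (g i).totalDegree ≤ 1)
    (hfg : ∀ i, aeval f (g i) = X i) (hgf : ∀ i, aeval g (f i) = X i) :
    Nice n k c I (fun i => aeval y (g i)) ∧
      ∀ p : MP k, aeval (fun i => aeval y (g i)) (aeval f p) = aeval y p := by
  have key : ∀ p : MP k, aeval (fun i => aeval y (g i)) p = aeval y (aeval g p) := by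
    intro p
    rw [← AlgHom.comp_apply, comp_aeval]
  have k1 : ∀ p : MP k, aeval g (aeval f p) = p := by
    intro p
    rw [← AlgHom.comp_apply, comp_aeval]
    simp only [hgf]
    exact aeval_X_left_apply p
  have k2 : ∀ p : MP k, aeval f (aeval g p) = p := by
    intro p
    rw [← AlgHom.comp_apply, comp_aeval]
    simp only [hfg]
    exact aeval_X_left_apply p
  refine ⟨?_, fun p => by rw [key, k1]⟩
  obtain ⟨h1, ι, _, e, h2, h3, h4⟩ := h
  refine ⟨fun i => ?_, ι, inferInstance, e, h2, fun G => ?_, fun p hp i => ?_⟩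
  · refine (totalDegree_aeval_le y 1 h1 _).trans ?_
    rw [one_mul]; exact hg i
  · obtain ⟨p, hp, hp'⟩ := h3 G
    refine ⟨fun i => aeval f (p i), fun i => ?_, ?_⟩
    · refine (totalDegree_aeval_le f 1 hf _).trans ?_
      rw [one_mul]; exact hp i
    · simpa only [key, k1] using hp'
  · simp only [key] at hp
    have := h4 _ hp i
    rw [← k2 (p i), this, map_zero]

lemma eval_single_of_homogeneous {G : MP (k + 1)} {e : ℕ} (hG : G.IsHomogeneous e) :
    eval (Pi.single 0 1) G = coeff (Finsupp.single 0 e) G := by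
  classical
  rw [eval_eq]
  rw [sum_eq_single (Finsupp.single 0 e)]
  · rw [prod_eq_one, mul_one]
    intro i hi
    have : i = 0 := by
      have := Finsupp.support_single_subset hi
      simpa using this
    subst this
    simp
  · intro m hm hne
    by_cases h : ∃ i ∈ m.support, i ≠ 0
    · obtain ⟨i, hi, hi0⟩ := h
      rw [prod_eq_zero hi, mul_zero]
      rw [Pi.single_eq_of_ne hi0, zero_pow (Finsupp.mem_support_iff.1 hi)]
    · push Not at h
      exfalso
      apply hne
      have h1 : m = Finsupp.single 0 (m 0) := by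
        ext i
        by_cases hi : i = 0
        · subst hi; simp
        · rw [Finsupp.single_eq_of_ne hi]
          by_contra h2
          exact hi (h i (Finsupp.mem_support_iff.2 h2))
      have h2 : m.degree = e := by
        by_contra h3
        exact (mem_support_iff.1 hm) (hG.coeff_eq_zero h3)
      rw [h1, Finsupp.degree_single] at h2
      rw [h1, h2]
  · intro h
    rw [notMem_support_iff.1 h, zero_mul]

lemma exists_regular (H : MP (k + 1)) (hH : H ≠ 0) :
    ∃ f g : Fin (k + 1) → MP (k + 1), (∀ i, (f i).totalDegree ≤ 1) ∧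
      (∀ i, (g i).totalDegree ≤ 1) ∧ (∀ i, aeval f (g i) = X i) ∧ (∀ i, aeval g (f i) = X i) ∧
      coeff (Finsupp.single 0 H.totalDegree) (aeval f H) ≠ 0 := by
  classical
  set e := H.totalDegree with he
  have h1 : homogeneousComponent e H ≠ 0 := by
    obtain ⟨m, hm, hm'⟩ := exists_mem_eq_sup H.support (support_nonempty.2 hH)
      (fun s : Fin (k + 1) →₀ ℕ => s.sum fun _ e => e)
    intro h
    have := congrArg (coeff m) h
    rw [coeff_homogeneousComponent, if_pos, coeff_zero] at this
    · exact mem_support_iff.1 hm this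
    · rw [he, totalDegree, hm']; rfl
  obtain ⟨v, hv⟩ : ∃ v : Fin (k + 1) → ℝ, eval v (X 0 * homogeneousComponent e H) ≠ 0 := by
    by_contra h
    push Not at h
    have : X 0 * homogeneousComponent e H = 0 := MvPolynomial.funext fun x => by rw [h x, map_zero]
    rcases mul_eq_zero.1 this with h | h
    · exact X_ne_zero _ h
    · exact h1 h
  rw [map_mul, eval_X] at hv
  have hv0 : v 0 ≠ 0 := left_ne_zero_of_mul hv
  have hv1 := right_ne_zero_of_mul hv
  let f : Fin (k + 1) → MP (k + 1) :=
    Fin.cons (C (v 0) * X 0) (fun i => X i.succ + C (v i.succ) * X 0)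
  let g : Fin (k + 1) → MP (k + 1) :=
    Fin.cons (C (v 0)⁻¹ * X 0) (fun i => X i.succ + C (-(v i.succ * (v 0)⁻¹)) * X 0)
  have hfh : ∀ i, (f i).IsHomogeneous 1 := by
    intro i
    refine Fin.cases ?_ (fun i => ?_) i
    · exact isHomogeneous_C_mul_X _ _
    · exact (isHomogeneous_X _ _).add (isHomogeneous_C_mul_X _ _)
  have hgh : ∀ i, (g i).IsHomogeneous 1 := by
    intro i
    refine Fin.cases ?_ (fun i => ?_) i
    · exact isHomogeneous_C_mul_X _ _
    · exact (isHomogeneous_X _ _).add (isHomogeneous_C_mul_X _ _)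
  refine ⟨f, g, fun i => (hfh i).totalDegree_le, fun i => (hgh i).totalDegree_le, ?_, ?_, ?_⟩
  · intro i
    refine Fin.cases ?_ (fun i => ?_) i
    · simp only [f, g, Fin.cons_zero, map_mul, aeval_C, aeval_X, algebraMap_eq]
      rw [← mul_assoc, ← map_mul, inv_mul_cancel₀ hv0, map_one, one_mul]
    · simp only [f, g, Fin.cons_zero, Fin.cons_succ, map_mul, map_add, aeval_C, aeval_X,
        algebraMap_eq]
      rw [← mul_assoc, ← map_mul, neg_mul, mul_assoc, inv_mul_cancel₀ hv0, mul_one, map_neg]
      ring
  · intro i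
    refine Fin.cases ?_ (fun i => ?_) i
    · simp only [f, g, Fin.cons_zero, map_mul, aeval_C, aeval_X, algebraMap_eq]
      rw [← mul_assoc, ← map_mul, mul_inv_cancel₀ hv0, map_one, one_mul]
    · simp only [f, g, Fin.cons_zero, Fin.cons_succ, map_mul, map_add, aeval_C, aeval_X,
        algebraMap_eq, map_neg]
      ring
  · conv => enter [1, 2, 2]; rw [← sum_homogeneousComponent H]
    rw [map_sum, coeff_sum, sum_eq_single e]
    · have h2 : (aeval f (homogeneousComponent e H)).IsHomogeneous (1 * e) :=
        (homogeneousComponent_isHomogeneous e H).aeval f hfh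
      rw [one_mul] at h2
      rw [← eval_single_of_homogeneous h2, eval_aeval']
      convert hv1 using 3
      funext i
      refine Fin.cases ?_ (fun i => ?_) i
      · simp [f]
      · simp [f, Fin.succ_ne_zero]
    · intro j _ hj
      have h2 : (aeval f (homogeneousComponent j H)).IsHomogeneous (1 * j) :=
        (homogeneousComponent_isHomogeneous j H).aeval f hfh
      apply h2.coeff_eq_zero
      rw [Finsupp.degree_single, one_mul]
      exact hj.symm
    · intro h
      exact absurd (mem_range.2 (Nat.lt_succ_self _)) h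

lemma exists_div (H : MP (k + 1)) (e : ℕ) (hd : H.totalDegree ≤ e)
    (hc : coeff (Finsupp.single 0 e) H ≠ 0) (p : MP (k + 1)) :
    ∃ (r : Fin e → MP k) (g : MP (k + 1)), (∀ j, (r j).totalDegree ≤ p.totalDegree) ∧
      p = H * g + ∑ j, rename Fin.succ (r j) * X 0 ^ (j : ℕ) := by
  classical
  set B := p.totalDegree with hB
  let Rep : MP (k + 1) → Prop := fun p => ∃ (r : Fin e → MP k) (g : MP (k + 1)),
    (∀ j, (r j).totalDegree ≤ B) ∧ p = H * g + ∑ j, rename Fin.succ (r j) * X 0 ^ (j : ℕ)
  have R0 : Rep 0 := ⟨0, 0, by simp, by simp⟩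
  have Radd : ∀ p q, Rep p → Rep q → Rep (p + q) := by
    rintro p q ⟨r, g, h1, rfl⟩ ⟨r', g', h1', rfl⟩
    refine ⟨r + r', g + g', fun j => (totalDegree_add _ _).trans (max_le (h1 j) (h1' j)), ?_⟩
    simp only [Pi.add_apply, map_add, add_mul, sum_add_distrib]
    ring
  have Rsmul : ∀ (a : ℝ) p, Rep p → Rep (C a * p) := by
    rintro a p ⟨r, g, h1, rfl⟩
    refine ⟨fun j => C a * r j, C a * g, fun j => ?_, ?_⟩
    · refine (totalDegree_mul _ _).trans ?_
      rw [totalDegree_C, zero_add]; exact h1 j
    · simp only [map_mul, rename_C, mul_add, mul_sum]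
      congr 1
      · ring
      · exact sum_congr rfl fun j _ => by ring
  have Rsum : ∀ (s : Finset (Fin (k + 1) →₀ ℕ)) (F : (Fin (k + 1) →₀ ℕ) → MP (k + 1)),
      (∀ m ∈ s, Rep (F m)) → Rep (∑ m ∈ s, F m) := fun s F h => sum_induction F Rep Radd R0 h
  have Rmon : ∀ (j : ℕ) (m : Fin (k + 1) →₀ ℕ), m 0 = j → m.degree ≤ B →
      Rep (monomial m (1 : ℝ)) := by
    intro j
    induction j using Nat.strong_induction_on with
    | _ j ih =>
      intro m hm hmB
      by_cases hj : j < e
      · refine ⟨Pi.single ⟨j, hj⟩ (monomial m.tail 1), 0, fun i => ?_, ?_⟩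
        · by_cases hi : i = ⟨j, hj⟩
          · subst hi
            rw [Pi.single_eq_same]
            refine (totalDegree_monomial_le _ _).trans (le_trans ?_ hmB)
            rw [Finsupp.sum_fintype _ _ (fun _ => rfl), Finsupp.degree_eq_sum, Fin.sum_univ_succ]
            exact Nat.le_add_left _ _
          · rw [Pi.single_eq_of_ne hi]; simp
        · rw [sum_eq_single ⟨j, hj⟩]
          · rw [Pi.single_eq_same, rename_monomial, X_pow_eq_monomial, monomial_mul, mul_zero,
              zero_add, mul_one]
            refine congrArg (fun z => monomial z (1 : ℝ)) ?_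
            ext i
            refine Fin.cases ?_ (fun i => ?_) i
            · rw [Finsupp.add_apply, Finsupp.mapDomain_of_notMem_range _ _ (by simp)]
              simp [hm]
            · rw [Finsupp.add_apply, Finsupp.mapDomain_apply (Fin.succ_injective _)]
              simp [Finsupp.tail_apply]
          · intro b _ hb
            rw [Pi.single_eq_of_ne hb]; simp
          · simp
      · push Not at hj
        set a := coeff (Finsupp.single 0 e) H with ha
        set m' := m - Finsupp.single 0 e with hm'
        have hmm : m = m' + Finsupp.single 0 e := by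
          rw [hm', tsub_add_cancel_of_le]
          rw [Finsupp.single_le_iff]; omega
        have hdeg : m'.degree + e = m.degree := by
          conv_rhs => rw [hmm]
          rw [map_add, Finsupp.degree_single]
        have hm0 : m' 0 + e = j := by
          rw [← hm]; conv_rhs => rw [hmm]
          simp
        have hH : H = monomial (Finsupp.single 0 e) a +
            ∑ μ ∈ H.support.erase (Finsupp.single 0 e), monomial μ (coeff μ H) := by
          conv_lhs => rw [H.as_sum]
          rw [← add_sum_erase _ _ (mem_support_iff.2 hc)]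
        have h2 : Rep (∑ μ ∈ H.support.erase (Finsupp.single 0 e),
            C (-(a⁻¹ * coeff μ H)) * monomial (m' + μ) (1 : ℝ)) := by
          apply Rsum
          intro μ hμ
          obtain ⟨hμ1, hμ2⟩ := mem_erase.1 hμ
          have hμd : μ.degree ≤ e := (le_totalDegree hμ2).trans hd
          have hμ0 : μ 0 < e := by
            by_contra h
            push Not at h
            apply hμ1
            rw [Finsupp.degree_eq_sum, Fin.sum_univ_succ] at hμd
            ext i
            refine Fin.cases ?_ (fun i => ?_) i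
            · simp; omega
            · have : μ i.succ ≤ ∑ i : Fin k, μ i.succ :=
                single_le_sum (f := fun i : Fin k => μ i.succ) (fun _ _ => Nat.zero_le _)
                  (mem_univ i)
              rw [Finsupp.single_eq_of_ne (Fin.succ_ne_zero i)]
              omega
          apply Rsmul
          refine ih (m' 0 + μ 0) (by omega) _ (by simp) ?_
          rw [map_add]; omega
        have h3 : Rep (H * monomial m' a⁻¹) := ⟨0, monomial m' a⁻¹, by simp, by simp⟩
        convert Radd _ _ h3 h2 using 1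
        conv_rhs => enter [1, 1]; rw [hH]
        rw [add_mul, monomial_mul, mul_inv_cancel₀ hc, add_comm _ m', ← hmm, add_assoc, sum_mul,
          ← sum_add_distrib, sum_eq_zero, add_zero]
        intro μ _
        rw [monomial_mul, C_mul_monomial, add_comm μ, ← map_add]
        have : coeff μ H * a⁻¹ + -(a⁻¹ * coeff μ H) * 1 = 0 := by ring
        rw [this, map_zero]
  have : Rep (∑ m ∈ p.support, C (coeff m p) * monomial m (1 : ℝ)) :=
    Rsum _ _ fun m hm => Rsmul _ _ (Rmon _ m rfl (le_totalDegree hm))
  simp only [C_mul_monomial, mul_one] at this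
  rw [← p.as_sum] at this
  exact this

lemma div_unique (H : MP (k + 1)) (e : ℕ) (hc : coeff (Finsupp.single 0 e) H ≠ 0)
    (r : Fin e → MP k) (g : MP (k + 1))
    (h : ∑ j, rename Fin.succ (r j) * X 0 ^ (j : ℕ) = H * g) : ∀ j, r j = 0 := by
  classical
  have hren : ∀ q : MP k, finSuccEquiv ℝ k (rename Fin.succ q) = Polynomial.C q := by
    intro q
    induction q using MvPolynomial.induction_on with
    | C a => simp [finSuccEquiv_apply]
    | add p q hp hq => simp only [map_add, hp, hq]
    | mul_X p i hp => simp only [map_mul, hp, rename_X, finSuccEquiv_X_succ]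
  have h1 := congrArg (finSuccEquiv ℝ k) h
  simp only [map_sum, map_mul, map_pow, hren, finSuccEquiv_X_zero] at h1
  have hH : H ≠ 0 := by rintro rfl; simp at hc
  have hHd : e ≤ (finSuccEquiv ℝ k H).natDegree := by
    rw [natDegree_finSuccEquiv]
    have := monomial_le_degreeOf (0 : Fin (k + 1)) (mem_support_iff.2 hc)
    simpa using this
  have hg : finSuccEquiv ℝ k g = 0 := by
    by_contra hg
    have h2 : (∑ j : Fin e, Polynomial.C (r j) * Polynomial.X ^ (j : ℕ)).degree < (e : WithBot ℕ) :=
      Polynomial.degree_sum_fin_lt r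
    have hH' : finSuccEquiv ℝ k H ≠ 0 := by simpa using hH
    rw [h1, Polynomial.degree_eq_natDegree (mul_ne_zero hH' hg),
      Polynomial.natDegree_mul hH' hg] at h2
    have : (finSuccEquiv ℝ k H).natDegree + (finSuccEquiv ℝ k g).natDegree < e := by
      exact_mod_cast h2
    omega
  rw [hg, mul_zero] at h1
  intro j
  have h2 := congrArg (fun P => Polynomial.coeff P (j : ℕ)) h1
  simpa only [Polynomial.finsetSum_coeff, Polynomial.coeff_C_mul_X_pow, Fin.val_inj, sum_ite_eq,
    mem_univ, if_true, Polynomial.coeff_zero] using h2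

/-- Cutting by one more polynomial in the affine forms. -/
theorem Nice.step {y : Fin (k + 1) → MP n} (h : Nice n (k + 1) c I y) (H : MP (k + 1))
    (hH : H ≠ 0) {D : ℕ} (hD : H.totalDegree ≤ D) :
    ∃ y' : Fin k → MP n, Nice n k (c * D) (I ⊔ Ideal.span {aeval y H}) y' := by
  classical
  obtain ⟨f, g, hf, hg, hfg, hgf, hc⟩ := exists_regular H hH
  obtain ⟨⟨h1, ι, _, e, h2, h3, h4⟩, h5⟩ := h.subst f g hf hg hfg hgf
  rw [← h5 H]
  set z : Fin (k + 1) → MP n := fun i => aeval y (g i) with hz
  set G := aeval f H with hG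
  set d := H.totalDegree with hd
  have hGd : G.totalDegree ≤ d := by
    have := totalDegree_aeval_le f 1 hf H
    rwa [one_mul] at this
  have hren : ∀ q : MP k, aeval z (rename Fin.succ q) = aeval (fun i => z i.succ) q := by
    intro q; rw [aeval_rename]; rfl
  have hsum : ∀ r : ι × Fin d → MP k,
      ∑ i, aeval (fun i => z i.succ) (r i) * (z 0 ^ (i.2 : ℕ) * e i.1) =
      ∑ i, aeval z (∑ j : Fin d, rename Fin.succ (r (i, j)) * X 0 ^ (j : ℕ)) * e i := by
    intro r
    rw [Fintype.sum_prod_type]
    apply sum_congr rfl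
    intro i _
    simp only [map_sum, map_mul, map_pow, aeval_X, hren, sum_mul, mul_assoc]
  refine ⟨fun i => z i.succ, fun i => h1 _, ι × Fin d, inferInstance,
    fun i => z 0 ^ (i.2 : ℕ) * e i.1, ?_, fun P => ?_, fun r hr => ?_⟩
  · rw [Fintype.card_prod, Fintype.card_fin]
    exact Nat.mul_le_mul h2 hD
  · obtain ⟨p, hp, hp'⟩ := h3 P
    choose r q hr hq using fun i => exists_div G d hGd hc (p i)
    refine ⟨fun i => r i.1 i.2, fun i => (hr i.1 i.2).trans (hp i.1), ?_⟩
    rw [hsum]
    have : P - ∑ i, aeval z (∑ j : Fin d, rename Fin.succ (r i j) * X 0 ^ (j : ℕ)) * e i =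
        (P - ∑ i, aeval z (p i) * e i) + (∑ i, aeval z (q i) * e i) * aeval z G := by
      conv_rhs => enter [1, 2, 2, i]; rw [hq i, map_add, add_mul, map_mul]
      rw [sum_add_distrib, sum_mul]
      have : ∑ i, aeval z (q i) * e i * aeval z G = ∑ i, aeval z G * aeval z (q i) * e i :=
        sum_congr rfl fun i _ => by ring
      rw [this]; ring
    rw [this]
    exact Submodule.add_mem_sup hp' (Ideal.mul_mem_left _ _ (Ideal.subset_span rfl))
  · rw [hsum] at hr
    obtain ⟨a, ha, b, hb, hab⟩ := Submodule.mem_sup.1 hr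
    obtain ⟨w, rfl⟩ := Ideal.mem_span_singleton'.1 hb
    obtain ⟨q, -, hq⟩ := h3 w
    have h6 : ∑ i, aeval z (∑ j : Fin d, rename Fin.succ (r (i, j)) * X 0 ^ (j : ℕ) - G * q i) *
        e i ∈ I := by
      have := I.add_mem ha (I.mul_mem_left (aeval z G) hq)
      convert this using 1
      simp only [map_sub, sub_mul, sum_sub_distrib, ← hab, map_mul, mul_sub, mul_sum, mul_assoc]
      ring
    rintro ⟨i, j⟩
    exact div_unique G d hc (fun j => r (i, j)) (q i) (sub_eq_zero.1 (h4 _ h6 i)) j

end Pool.Agent.Lib.PolyPart
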