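import Pool.Agent.Lib.PolyPart.Nice

/-!
Algebraic relations modulo nice ideals, degenerate hypersurfaces and fibre counting.
-/

namespace Pool.Agent.Lib.PolyPart

open Finset MvPolynomial

variable {n k c : ℕ} {I : Ideal (MP n)}

/-- Exponent vector of a bounded function. -/
noncomputable def ex {k B : ℕ} (a : Fin k → Fin (B + 1)) : Fin k →₀ ℕ :=
  Finsupp.equivFunOnFinite.symm fun s => (a s : ℕ)

lemma ex_apply {k B : ℕ} (a : Fin k → Fin (B + 1)) (s : Fin k) : ex a s = a s := rfl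

lemma ex_injective {k B : ℕ} : Function.Injective (ex : (Fin k → Fin (B + 1)) → _) := by
  intro a b h
  funext s
  exact Fin.ext (DFunLike.congr_fun h s)

lemma totalDegree_monomial_ex {k B : ℕ} (a : Fin k → Fin (B + 1)) (r : ℝ) :
    (monomial (ex a) r : MP k).totalDegree ≤ k * B := by
  refine (totalDegree_monomial_le _ _).trans ?_
  rw [Finsupp.sum_fintype _ _ (fun _ => rfl)]
  calc ∑ i, id (ex a i) ≤ ∑ _i : Fin k, B :=
        sum_le_sum fun i _ => Nat.lt_succ_iff.1 (a i).2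
    _ = k * B := by simp

theorem Nice.relation {y : Fin k → MP n} (h : Nice n k c I y) (F : Fin k → MP n) (l : MP n)
    (D D' J : ℕ) (hF : ∀ i, (F i).totalDegree ≤ D) (hl : l.totalDegree ≤ D')
    (hJ : c * (k * D + D' + 1) ^ k ≤ J) :
    ∃ q : Fin (J + 1) → MP k, q ≠ 0 ∧ (∀ j, (q j).totalDegree ≤ k * J) ∧
      ∑ j, aeval F (q j) * l ^ (j : ℕ) ∈ I := by
  classical
  obtain ⟨-, ι, _, e, h2, h3, -⟩ := h
  set B := J * (k * D + D') with hB
  let mk : MP n →ₗ[ℝ] MP n ⧸ I := (Ideal.Quotient.mkₐ ℝ I).toLinearMap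
  let b : (Fin k → Fin (B + 1)) × ι → MP n ⧸ I :=
    fun p => mk (aeval y (monomial (ex p.1) (1 : ℝ)) * e p.2)
  let S : Submodule ℝ (MP n ⧸ I) := Submodule.span ℝ (Set.range b)
  have hS : ∀ g : MP n, g.totalDegree ≤ B → mk g ∈ S := by
    intro g hg
    obtain ⟨p, hp, hp'⟩ := h3 g
    have h4 : mk g = mk (∑ i, aeval y (p i) * e i) := Ideal.Quotient.eq.2 hp'
    rw [h4, map_sum]
    apply S.sum_mem
    intro i _
    rw [(p i).as_sum, map_sum, sum_mul, map_sum]
    apply S.sum_mem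
    intro m hm
    have hle : ∀ s, m s ≤ B := fun s =>
      (monomial_le_degreeOf s hm).trans ((degreeOf_le_totalDegree _ _).trans ((hp i).trans hg))
    have h5 : m = ex (fun s => (⟨m s, Nat.lt_succ_of_le (hle s)⟩ : Fin (B + 1))) := by
      ext s; rfl
    have h6 : monomial m (coeff m (p i)) = coeff m (p i) • monomial m (1 : ℝ) := by
      rw [smul_monomial, smul_eq_mul, mul_one]
    rw [h6, map_smul, smul_mul_assoc, map_smul]
    apply S.smul_mem
    apply Submodule.subset_span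
    exact ⟨(fun s => ⟨m s, Nat.lt_succ_of_le (hle s)⟩, i), by simp only [b]; rw [← h5]⟩
  let t : (Fin k → Fin (J + 1)) × Fin (J + 1) → MP n :=
    fun p => aeval F (monomial (ex p.1) (1 : ℝ)) * l ^ (p.2 : ℕ)
  have ht : ∀ p, (t p).totalDegree ≤ B := by
    intro p
    refine (totalDegree_mul _ _).trans ?_
    have a1 := (totalDegree_aeval_le F D hF (monomial (ex p.1) (1 : ℝ))).trans
      (Nat.mul_le_mul_left D (totalDegree_monomial_ex p.1 1))
    have a2 : (l ^ (p.2 : ℕ)).totalDegree ≤ J * D' :=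
      (totalDegree_pow _ _).trans (Nat.mul_le_mul (Nat.lt_succ_iff.1 p.2.2) hl)
    calc _ ≤ D * (k * J) + J * D' := Nat.add_le_add a1 a2
      _ = B := by rw [hB]; ring
  let Ψ : ((Fin k → Fin (J + 1)) × Fin (J + 1) → ℝ) →ₗ[ℝ] S :=
    Fintype.linearCombination ℝ (fun p => (⟨mk (t p), hS _ (ht p)⟩ : S))
  have : Module.Finite ℝ S := Module.Finite.span_of_finite ℝ (Set.finite_range b)
  have hlt : Module.finrank ℝ S <
      Module.finrank ℝ ((Fin k → Fin (J + 1)) × Fin (J + 1) → ℝ) := by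
    refine lt_of_le_of_lt (finrank_range_le_card b) ?_
    simp only [Module.finrank_fintype_fun_eq_card, Fintype.card_prod, Fintype.card_fun,
      Fintype.card_fin]
    calc (B + 1) ^ k * Fintype.card ι ≤ ((J + 1) * (k * D + D' + 1)) ^ k * c := by
          apply Nat.mul_le_mul _ h2
          apply Nat.pow_le_pow_left
          rw [hB]; nlinarith [Nat.zero_le (k * D + D')]
      _ = (J + 1) ^ k * (c * (k * D + D' + 1) ^ k) := by rw [mul_pow]; ring
      _ < (J + 1) ^ k * (J + 1) := Nat.mul_lt_mul_of_pos_left (by omega) (by positivity)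
  obtain ⟨a, ha, ha0⟩ := Submodule.exists_mem_ne_zero_of_ne_bot
    (LinearMap.ker_ne_bot_of_finrank_lt (f := Ψ) hlt)
  refine ⟨fun j => ∑ α, monomial (ex α) (a (α, j)), ?_, fun j => ?_, ?_⟩
  · intro h
    apply ha0
    funext ⟨α, j⟩
    have h1 := congrArg (coeff (ex α)) (congrFun h j)
    simpa only [coeff_sum, coeff_monomial, ex_injective.eq_iff, sum_ite_eq', mem_univ, if_true,
      coeff_zero, Pi.zero_apply] using h1
  · exact totalDegree_finsetSum_le fun α _ => totalDegree_monomial_ex α _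
  · rw [← Ideal.Quotient.eq_zero_iff_mem]
    have h1 : Ψ a = 0 := ha
    have h4 := congrArg (Subtype.val) h1
    simp only [Ψ, Fintype.linearCombination_apply, Submodule.coe_sum, Submodule.coe_smul,
      ZeroMemClass.coe_zero] at h4
    change mk _ = 0
    rw [← h4, Fintype.sum_prod_type, sum_comm, map_sum]
    apply sum_congr rfl
    intro j _
    rw [map_sum, sum_mul, map_sum]
    apply sum_congr rfl
    intro α _
    have h6 : monomial (ex α) (a (α, j)) = a (α, j) • monomial (ex α) (1 : ℝ) := by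
      rw [smul_monomial, smul_eq_mul, mul_one]
    rw [h6, map_smul, smul_mul_assoc, map_smul]

/-- `x` is a zero of the ideal `I`. -/
def Van (I : Ideal (MP n)) (x : Fin n → ℝ) : Prop := ∀ g ∈ I, eval x g = 0

/-- `s` is nilpotent modulo `I` near the point `x`. -/
def DegAt (I : Ideal (MP n)) (x : Fin n → ℝ) (s : MP n) : Prop :=
  ∃ (Ψ : MP n) (N : ℕ), eval x Ψ ≠ 0 ∧ s ^ N * Ψ ∈ I

lemma DegAt.of_mem {x : Fin n → ℝ} {s : MP n} (h : s ∈ I) : DegAt I x s :=
  ⟨1, 1, by simp, by simpa using h⟩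

lemma Van.sup {x : Fin n → ℝ} (h : Van I x) {H : MP n} (hH : eval x H = 0) :
    Van (I ⊔ Ideal.span {H}) x := by
  intro g hg
  obtain ⟨a, ha, b, hb, rfl⟩ := Submodule.mem_sup.1 hg
  obtain ⟨w, rfl⟩ := Ideal.mem_span_singleton'.1 hb
  rw [map_add, map_mul, h a ha, hH, mul_zero, add_zero]

theorem Nice.exists_curve {y : Fin k → MP n} (h : Nice n k c I y) (s : MP n) (D' : ℕ)
    (hs : s.totalDegree ≤ D') :
    ∃ q : MP k, q ≠ 0 ∧ q.totalDegree ≤ k * (c * (k + D' + 1) ^ k) ∧
      ∀ x, Van I x → eval x s = 0 → ¬ DegAt I x s → eval (fun i => eval x (y i)) q = 0 := by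
  classical
  obtain ⟨q, hq0, hqd, hq⟩ := h.relation y s 1 D' (c * (k + D' + 1) ^ k) h.1 hs (by simp)
  have hne : (univ.filter fun j => q j ≠ 0).Nonempty := by
    obtain ⟨j, hj⟩ := Function.ne_iff.1 hq0
    exact ⟨j, mem_filter.2 ⟨mem_univ _, hj⟩⟩
  obtain ⟨j₀, hj₀, hmin⟩ := exists_min_image _ Fin.val hne
  have hz : ∀ j, j.val < j₀.val → q j = 0 := by
    intro j hj
    by_contra h'
    exact absurd (hmin j (mem_filter.2 ⟨mem_univ _, h'⟩)) (by omega)
  refine ⟨q j₀, (mem_filter.1 hj₀).2, hqd j₀, fun x _ hsx hdeg => ?_⟩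
  by_contra hne'
  apply hdeg
  refine ⟨∑ j, aeval y (q j) * s ^ ((j : ℕ) - j₀), j₀, ?_, ?_⟩
  · rw [map_sum, sum_eq_single j₀]
    · rw [Nat.sub_self, pow_zero, mul_one, eval_aeval']; exact hne'
    · intro j _ hj
      rcases lt_or_gt_of_ne (Fin.val_ne_of_ne hj) with h' | h'
      · simp [hz j h']
      · rw [map_mul, map_pow, hsx, zero_pow (by omega), mul_zero]
    · simp
  · convert hq using 1
    rw [mul_sum]
    apply sum_congr rfl
    intro j _
    by_cases h' : (j : ℕ) < j₀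
    · simp [hz j h']
    · rw [mul_left_comm, ← pow_add]
      congr 2
      omega

lemma exists_separating (W : Finset (Fin n → ℝ)) :
    ∃ t ∈ range (n * #W ^ 2 + 1),
      Set.InjOn (fun x : Fin n → ℝ => ∑ s : Fin n, (t : ℝ) ^ (s : ℕ) * x s) W := by
  classical
  let P : (Fin n → ℝ) × (Fin n → ℝ) → Polynomial ℝ :=
    fun p => ∑ s : Fin n, Polynomial.C (p.1 s - p.2 s) * Polynomial.X ^ (s : ℕ)
  let Bad : Finset ℝ := (W ×ˢ W).biUnion fun p => (P p).roots.toFinset
  have hBad : #Bad ≤ n * #W ^ 2 := by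
    refine card_biUnion_le.trans ?_
    calc ∑ p ∈ W ×ˢ W, #(P p).roots.toFinset ≤ ∑ _p ∈ W ×ˢ W, n := by
          apply sum_le_sum
          intro p _
          refine (Multiset.toFinset_card_le _).trans ((Polynomial.card_roots' _).trans ?_)
          apply Polynomial.natDegree_sum_le_of_forall_le
          intro s _
          exact (Polynomial.natDegree_C_mul_X_pow_le _ _).trans s.2.le
      _ = n * #W ^ 2 := by simp [card_product]; ring
  obtain ⟨t, ht, htB⟩ : ∃ t ∈ range (n * #W ^ 2 + 1), (t : ℝ) ∉ Bad := by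
    by_contra h
    push Not at h
    have h1 : (range (n * #W ^ 2 + 1)).image (Nat.cast : ℕ → ℝ) ⊆ Bad := by
      intro z hz
      obtain ⟨t, ht, rfl⟩ := mem_image.1 hz
      exact h t ht
    have h2 := card_le_card h1
    rw [card_image_of_injective _ Nat.cast_injective, card_range] at h2
    omega
  refine ⟨t, ht, fun x hx x' hx' hxx => ?_⟩
  by_contra hne
  apply htB
  refine mem_biUnion.2 ⟨(x, x'), mem_product.2 ⟨hx, hx'⟩, ?_⟩
  rw [Multiset.mem_toFinset, Polynomial.mem_roots]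
  · simp only [P, Polynomial.IsRoot, Polynomial.eval_finsetSum, Polynomial.eval_mul,
      Polynomial.eval_C, Polynomial.eval_pow, Polynomial.eval_X]
    simp only at hxx
    rw [← sub_eq_zero, ← sum_sub_distrib] at hxx
    rw [← hxx]
    exact sum_congr rfl fun s _ => by ring
  · intro h
    apply hne
    funext s
    have h2 := congrArg (fun P => Polynomial.coeff P (s : ℕ)) h
    simp only [P, Polynomial.finsetSum_coeff, Polynomial.coeff_C_mul_X_pow, Fin.val_inj,
      sum_ite_eq, mem_univ, if_true, Polynomial.coeff_zero] at h2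
    exact sub_eq_zero.1 h2

theorem Nice.fibre {y : Fin k → MP n} (h : Nice n k c I y) (F : Fin k → MP n) (D M : ℕ)
    (hF : ∀ i, (F i).totalDegree ≤ D) {δ : ℝ} (hδ : 0 < δ)
    (hW : ∀ v : Fin k → ℝ, (∀ i, |v i| < δ) → ∃ W : Finset (Fin n → ℝ), #W = M ∧
      ∀ x ∈ W, Van I x ∧ ∀ i, eval x (F i) = v i) :
    M ≤ c * (k * D + 2) ^ k := by
  classical
  by_contra hM
  push Not at hM
  let l : ℕ → MP n := fun t => ∑ s : Fin n, C ((t : ℝ) ^ (s : ℕ)) * X s
  have hl : ∀ t, (l t).totalDegree ≤ 1 := by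
    intro t
    apply totalDegree_finsetSum_le
    intro s _
    refine (totalDegree_mul _ _).trans ?_
    rw [totalDegree_C, totalDegree_X]
  set J := c * (k * D + 2) ^ k with hJ
  choose q hq0 _ hq using fun t => h.relation F (l t) D 1 J hF (hl t) le_rfl
  choose j hj using fun t => Function.ne_iff.1 (hq0 t)
  have hQ : ∏ t ∈ range (n * M ^ 2 + 1), q t (j t) ≠ 0 := prod_ne_zero_iff.2 fun t _ => hj t
  apply hQ
  apply funext_set (fun _ => Set.Ioo (-δ) δ) (fun _ => Set.Ioo_infinite (by linarith))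
  intro v hv
  obtain ⟨W, hWc, hWx⟩ := hW v fun i => abs_lt.2 (hv i (Set.mem_univ i))
  obtain ⟨t, ht, hinj⟩ := exists_separating W
  rw [hWc] at ht
  rw [map_zero, map_prod]
  apply prod_eq_zero ht
  let Q : Polynomial ℝ := ∑ j : Fin (J + 1), Polynomial.C (eval v (q t j)) * Polynomial.X ^ (j : ℕ)
  have hQd : Q.natDegree ≤ J := by
    apply Polynomial.natDegree_sum_le_of_forall_le
    intro j _
    exact (Polynomial.natDegree_C_mul_X_pow_le _ _).trans (Nat.lt_succ_iff.1 j.2)
  have hQ0 : Q = 0 := by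
    apply Polynomial.eq_zero_of_natDegree_lt_card_of_eval_eq_zero' Q
      (W.image fun x => ∑ s : Fin n, (t : ℝ) ^ (s : ℕ) * x s)
    · intro z hz
      obtain ⟨x, hx, rfl⟩ := mem_image.1 hz
      have h1 := (hWx x hx).1 _ (hq t)
      simp only [map_sum, map_mul, map_pow, eval_aeval', (hWx x hx).2, l, eval_C, eval_X] at h1
      simp only [Q, Polynomial.eval_finsetSum, Polynomial.eval_mul, Polynomial.eval_C,
        Polynomial.eval_pow, Polynomial.eval_X]
      exact h1
    · rw [card_image_of_injOn hinj]; omega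
  have h2 := congrArg (fun P => Polynomial.coeff P (j t : ℕ)) hQ0
  simpa only [Q, Polynomial.finsetSum_coeff, Polynomial.coeff_C_mul_X_pow, Fin.val_inj,
    sum_ite_eq, mem_univ, if_true, Polynomial.coeff_zero] using h2

theorem Nice.card_le {y : Fin 0 → MP n} (h : Nice n 0 c I y) (W : Finset (Fin n → ℝ))
    (hW : ∀ x ∈ W, Van I x) : #W ≤ c := by
  have := h.fibre Fin.elim0 0 #W (fun i => i.elim0) one_pos
    (fun v _ => ⟨W, rfl, fun x hx => ⟨hW x hx, fun i => i.elim0⟩⟩)
  simpa using this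

end Pool.Agent.Lib.PolyPart
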