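import Pool.Agent.Lib.PolyPart.Hyper
import Pool.Agent.Lib.PolyPart.Ham

/-!
A multi-level polynomial partition with weights, adapted to quadrics and plane conics.
-/

namespace Pool.Agent.Lib.PolyPart

open Finset MvPolynomial

open Classical in
/-- `a` if `p` holds and zero otherwise. -/
noncomputable def ind (p : Prop) (a : ℝ) : ℝ := if p then a else 0

lemma ind_pos {p : Prop} (h : p) (a : ℝ) : ind p a = a := if_pos h

lemma ind_neg {p : Prop} (h : ¬ p) (a : ℝ) : ind p a = 0 := if_neg h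

lemma ind_nonneg (p : Prop) {a : ℝ} (h : 0 ≤ a) : 0 ≤ ind p a := by
  unfold ind; split_ifs; exacts [h, le_rfl]

lemma ind_le (p : Prop) {a : ℝ} (h : 0 ≤ a) : ind p a ≤ a := by
  unfold ind; split_ifs; exacts [le_rfl, h]

lemma ind_mono {p q : Prop} (hpq : p → q) {a b : ℝ} (hb : 0 ≤ b) (h : a ≤ b) :
    ind p a ≤ ind q b := by
  by_cases hp : p
  · rw [ind_pos hp, ind_pos (hpq hp)]; exact h
  · rw [ind_neg hp]; exact ind_nonneg _ hb

lemma ind_mul (p : Prop) (a b : ℝ) : ind p (a * b) = a * ind p b := by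
  unfold ind; split_ifs <;> simp

variable {n : ℕ}

/-- A set contained in an affine image of a plane curve of degree at most two. -/
def IsConic (Y : Set (Fin n → ℝ)) : Prop :=
  ∃ (φ : Fin n → MP 2) (q : MP 2), (∀ i, (φ i).totalDegree ≤ 1) ∧ q ≠ 0 ∧ q.totalDegree ≤ 2 ∧
    ∀ x ∈ Y, ∃ z : Fin 2 → ℝ, eval z q = 0 ∧ x = fun i => eval z (φ i)

/-- The leaves of a partition tree. -/
structure Tree (n : ℕ) where
  ι : Type
  [inst : Fintype ι]
  A : ι → Finset (Fin n → ℝ)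
  W : ι → ℝ
  R : ι → ℝ
  J : ι → List (Ideal (MP n))

attribute [instance] Tree.inst

/-- The properties of a partition tree. -/
structure Tree.Ok (T : Tree n) (k : ℕ) (I : Ideal (MP n)) (X : Finset (Fin n → ℝ))
    (θ K L : ℝ) : Prop where
  cover : ∀ x ∈ X, ∃ τ, x ∈ T.A τ
  sub : ∀ τ, T.A τ ⊆ X
  R1 : ∀ τ, 1 ≤ T.R τ
  RW : ∀ τ, T.R τ ≤ T.W τ
  WR : ∀ τ, T.W τ ≤ T.R τ ^ k ∨ (k = 0 ∧ T.W τ = 1)
  size : ∀ τ, #(T.A τ) * T.W τ ≤ #X
  upper : ∀ τ, T.W τ ≤ T.R τ * max 1 (K * θ)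
  lower : ∀ τ, θ * T.R τ ≤ T.W τ ∨ #(T.A τ) ≤ K
  len : ∀ τ, (T.J τ).length ≤ k
  top : ∀ τ, k ≠ 0 → I ∈ T.J τ
  ideals : ∀ τ, ∀ J ∈ T.J τ, I ≤ J ∧ (∀ x ∈ T.A τ, Van J x) ∧
    ∃ k' c' y', Nice n (k' + 1) c' J y'
  sumW : ∑ τ, 1 / T.W τ ≤ L
  sumC : ∀ Y, IsConic Y → ∑ τ, ind (∃ x ∈ T.A τ, x ∈ Y) (1 / T.R τ) ≤ L
  sumS : ∀ s : MP n, s.totalDegree ≤ 2 →
    ∑ τ, ind (∃ x ∈ T.A τ, eval x s = 0 ∧ ∀ J ∈ T.J τ, ¬ DegAt J x s) (T.R τ / T.W τ) ≤ L

lemma Tree.Ok.mono {T : Tree n} {k : ℕ} {I : Ideal (MP n)} {X : Finset (Fin n → ℝ)}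
    {θ K L K' L' : ℝ} (h : T.Ok k I X θ K L) (hθ : 0 ≤ θ) (hK : K ≤ K') (hL : L ≤ L') :
    T.Ok k I X θ K' L' :=
  { h with
    upper := fun τ => (h.upper τ).trans (mul_le_mul_of_nonneg_left
      (max_le_max le_rfl (mul_le_mul_of_nonneg_right hK hθ)) (by linarith [h.R1 τ]))
    lower := fun τ => (h.lower τ).imp_right fun h' => h'.trans hK
    sumW := h.sumW.trans hL
    sumC := fun Y hY => (h.sumC Y hY).trans hL
    sumS := fun s hs => (h.sumS s hs).trans hL }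

lemma exists_tree_empty (k : ℕ) (I : Ideal (MP n)) (θ K L : ℝ) (hL : 0 ≤ L) :
    ∃ T : Tree n, T.Ok k I ∅ θ K L := by
  refine ⟨⟨Empty, fun τ => τ.elim, fun τ => τ.elim, fun τ => τ.elim, fun τ => τ.elim⟩, ?_⟩
  constructor <;> first | exact fun τ => τ.elim | simp [hL]

lemma exists_tree_leaf (k : ℕ) (I : Ideal (MP n)) (X : Finset (Fin n → ℝ)) (θ K L : ℝ)
    (hL : 1 ≤ L) (hθ : θ ≤ 1 ∨ #X ≤ K) (l : List (Ideal (MP n))) (hl : l.length ≤ k)
    (hI : k ≠ 0 → I ∈ l)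
    (hl' : ∀ J ∈ l, I ≤ J ∧ (∀ x ∈ X, Van J x) ∧ ∃ k' c' y', Nice n (k' + 1) c' J y') :
    ∃ T : Tree n, T.Ok k I X θ K L := by
  refine ⟨⟨Unit, fun _ => X, fun _ => 1, fun _ => 1, fun _ => l⟩, ?_⟩
  constructor
  · exact fun x hx => ⟨(), hx⟩
  · exact fun _ => Subset.rfl
  · exact fun _ => le_rfl
  · exact fun _ => le_rfl
  · exact fun _ => Or.inl (by simp)
  · exact fun _ => by simp
  · exact fun _ => by simp
  · exact fun _ => by simpa using hθ
  · exact fun _ => hl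
  · exact fun _ => hI
  · exact fun _ => hl'
  · simpa using hL
  · intro Y _
    rw [Fintype.sum_unique]
    exact (ind_le _ (by simp)).trans (by simpa using hL)
  · intro s _
    rw [Fintype.sum_unique]
    exact (ind_le _ (by simp)).trans (by simpa using hL)

lemma sum_ind_le {S : Type} [Fintype S] (P : S → Prop) (F : S → ℝ) (a N : ℝ) (ha : 0 ≤ a)
    (hF : ∀ σ, F σ ≤ a) (hP : ∀ σ, ¬ P σ → F σ ≤ 0)
    (hN : ∀ Z : Finset S, (∀ σ ∈ Z, P σ) → #Z ≤ N) : ∑ σ, F σ ≤ N * a := by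
  classical
  rw [← sum_filter_add_sum_filter_not univ P]
  have h1 : ∑ σ ∈ univ.filter P, F σ ≤ #(univ.filter P) * a := by
    have := sum_le_card_nsmul (univ.filter P) F a fun σ _ => hF σ
    simpa using this
  have h2 : ∑ σ ∈ univ.filter (fun σ => ¬ P σ), F σ ≤ 0 :=
    sum_nonpos fun σ hσ => hP σ (mem_filter.1 hσ).2
  have h3 := mul_le_mul_of_nonneg_right (hN (univ.filter P) fun σ hσ => (mem_filter.1 hσ).2) ha
  linarith

lemma exists_tree_combine (k : ℕ) (I I' : Ideal (MP n)) (hII' : I ≤ I')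
    (hI : ∃ c y, Nice n (k + 1) c I y) (X : Finset (Fin n → ℝ)) (hX : ∀ x ∈ X, Van I x)
    (S : Type) [Fintype S] (Xc : S → Finset (Fin n → ℝ)) (X₀ : Finset (Fin n → ℝ))
    (hcov : ∀ x ∈ X, x ∈ X₀ ∨ ∃ σ, x ∈ Xc σ) (hsub : ∀ σ, Xc σ ⊆ X) (hsub₀ : X₀ ⊆ X)
    (r θ K L L₀ κ : ℝ) (hr : 1 ≤ r) (hθ : 1 ≤ θ) (hK : r ^ k ≤ K) (hL : 0 ≤ L) (hκ : 1 ≤ κ)
    (hsize : ∀ σ, r ^ (k + 1) * #(Xc σ) ≤ #X) (hS : Fintype.card S ≤ r ^ (k + 1))
    (T : S → Tree n) (hT : ∀ σ, (T σ).Ok (k + 1) I (Xc σ) (θ / r ^ k) K L)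
    (T₀ : Tree n) (hT₀ : T₀.Ok k I' X₀ θ K L₀)
    (hC : ∀ Y, IsConic Y → ∀ Z : Finset S, (∀ σ ∈ Z, ∃ x ∈ Xc σ, x ∈ Y) → #Z ≤ κ * r)
    (hQ : ∀ s : MP n, s.totalDegree ≤ 2 → ∀ Z : Finset S,
      (∀ σ ∈ Z, ∃ x ∈ Xc σ, eval x s = 0 ∧ ¬ DegAt I x s) → #Z ≤ κ * r ^ k) :
    ∃ T' : Tree n, T'.Ok (k + 1) I X θ K (κ * L + L₀) := by
  have hr0 : 0 < r := by linarith
  have hrk : 1 ≤ r ^ k := one_le_pow₀ hr
  refine ⟨⟨(Σ σ, (T σ).ι) ⊕ T₀.ι, Sum.elim (fun p => (T p.1).A p.2) T₀.A,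
    Sum.elim (fun p => r ^ (k + 1) * (T p.1).W p.2) T₀.W,
    Sum.elim (fun p => r * (T p.1).R p.2) T₀.R,
    Sum.elim (fun p => (T p.1).J p.2) (fun τ => I :: T₀.J τ)⟩, ?_⟩
  constructor
  · intro x hx
    rcases hcov x hx with h | ⟨σ, h⟩
    · obtain ⟨τ, hτ⟩ := hT₀.cover x h
      exact ⟨Sum.inr τ, hτ⟩
    · obtain ⟨τ, hτ⟩ := (hT σ).cover x h
      exact ⟨Sum.inl ⟨σ, τ⟩, hτ⟩
  · rintro (⟨σ, τ⟩ | τ)
    · exact ((hT σ).sub τ).trans (hsub σ)
    · exact (hT₀.sub τ).trans hsub₀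
  · rintro (⟨σ, τ⟩ | τ)
    · exact one_le_mul_of_one_le_of_one_le hr ((hT σ).R1 τ)
    · exact hT₀.R1 τ
  · rintro (⟨σ, τ⟩ | τ)
    · have h1 := (hT σ).R1 τ
      refine mul_le_mul ?_ ((hT σ).RW τ) (by linarith) (by positivity)
      rw [pow_succ]; nlinarith
    · exact hT₀.RW τ
  · rintro (⟨σ, τ⟩ | τ)
    · left
      rcases (hT σ).WR τ with h | h
      · simp only [Sum.elim_inl, mul_pow]
        exact mul_le_mul_of_nonneg_left h (by positivity)
      · omega
    · left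
      have h1 := hT₀.R1 τ
      rcases hT₀.WR τ with h | h
      · exact h.trans (pow_le_pow_right₀ h1 k.le_succ)
      · simp only [Sum.elim_inr, h.2]
        exact one_le_pow₀ h1
  · rintro (⟨σ, τ⟩ | τ)
    · simp only [Sum.elim_inl]
      refine le_trans ?_ (hsize σ)
      rw [mul_left_comm]
      exact mul_le_mul_of_nonneg_left ((hT σ).size τ) (by positivity)
    · exact (hT₀.size τ).trans (by exact_mod_cast card_le_card hsub₀)
  · rintro (⟨σ, τ⟩ | τ)
    · simp only [Sum.elim_inl]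
      have h1 := (hT σ).R1 τ
      have h2 : r ^ k * max 1 (K * (θ / r ^ k)) ≤ max 1 (K * θ) := by
        rw [mul_max_of_nonneg _ _ (by positivity)]
        refine max_le (le_max_of_le_right ?_) (le_max_of_le_right (le_of_eq (by field_simp)))
        nlinarith
      calc r ^ (k + 1) * (T σ).W τ ≤ r ^ (k + 1) * ((T σ).R τ * max 1 (K * (θ / r ^ k))) :=
            mul_le_mul_of_nonneg_left ((hT σ).upper τ) (by positivity)
        _ = r * (T σ).R τ * (r ^ k * max 1 (K * (θ / r ^ k))) := by ring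
        _ ≤ _ := mul_le_mul_of_nonneg_left h2 (by positivity)
    · exact hT₀.upper τ
  · rintro (⟨σ, τ⟩ | τ)
    · refine ((hT σ).lower τ).imp_left fun h => ?_
      simp only [Sum.elim_inl]
      calc θ * (r * (T σ).R τ) = r ^ (k + 1) * (θ / r ^ k * (T σ).R τ) := by
            field_simp; ring
        _ ≤ _ := mul_le_mul_of_nonneg_left h (by positivity)
    · exact hT₀.lower τ
  · rintro (⟨σ, τ⟩ | τ)
    · exact (hT σ).len τ
    · simpa using hT₀.len τ
  · rintro (⟨σ, τ⟩ | τ) h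
    · exact (hT σ).top τ h
    · exact List.mem_cons_self
  · rintro (⟨σ, τ⟩ | τ) J hJ
    · exact (hT σ).ideals τ J hJ
    · rcases List.mem_cons.1 hJ with rfl | hJ
      · obtain ⟨c, y, h⟩ := hI
        exact ⟨le_rfl, fun x hx => hX x (hsub₀ (hT₀.sub τ hx)), k, c, y, h⟩
      · obtain ⟨h1, h2⟩ := hT₀.ideals τ J hJ
        exact ⟨hII'.trans h1, h2⟩
  · rw [Fintype.sum_sum_type, Fintype.sum_sigma]
    refine add_le_add ?_ hT₀.sumW
    simp only [Sum.elim_inl]
    calc ∑ σ, ∑ τ, 1 / (r ^ (k + 1) * (T σ).W τ) ≤ ∑ _σ : S, 1 / r ^ (k + 1) * L := by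
          apply sum_le_sum
          intro σ _
          refine le_trans (le_of_eq ?_)
            (mul_le_mul_of_nonneg_left (hT σ).sumW (by positivity))
          rw [mul_sum]
          exact sum_congr rfl fun τ _ => by rw [one_div_mul_one_div]
      _ = Fintype.card S / r ^ (k + 1) * L := by
          rw [sum_const, card_univ, nsmul_eq_mul]; ring
      _ ≤ κ * L := by
          apply mul_le_mul_of_nonneg_right _ hL
          exact ((div_le_one (by positivity)).2 hS).trans hκ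
  · intro Y hY
    rw [Fintype.sum_sum_type, Fintype.sum_sigma]
    refine add_le_add ?_ (hT₀.sumC Y hY)
    simp only [Sum.elim_inl]
    refine (sum_ind_le (fun σ => ∃ x ∈ Xc σ, x ∈ Y) _ (1 / r * L) (κ * r) (by positivity)
      (fun σ => ?_) (fun σ hσ => ?_) (hC Y hY)).trans (le_of_eq (by field_simp))
    · refine le_trans (le_of_eq ?_)
        (mul_le_mul_of_nonneg_left ((hT σ).sumC Y hY) (by positivity))
      rw [mul_sum]
      exact sum_congr rfl fun τ _ => by rw [← ind_mul, one_div_mul_one_div]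
    · apply sum_nonpos
      intro τ _
      rw [ind_neg]
      rintro ⟨x, hx, hx'⟩
      exact hσ ⟨x, (hT σ).sub τ hx, hx'⟩
  · intro s hs
    rw [Fintype.sum_sum_type, Fintype.sum_sigma]
    refine add_le_add ?_ (le_trans (sum_le_sum fun τ _ => ?_) (hT₀.sumS s hs))
    · simp only [Sum.elim_inl]
      refine (sum_ind_le (fun σ => ∃ x ∈ Xc σ, eval x s = 0 ∧ ¬ DegAt I x s) _ (1 / r ^ k * L)
        (κ * r ^ k) (by positivity)
        (fun σ => ?_) (fun σ hσ => ?_) (hQ s hs)).trans (le_of_eq (by field_simp))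
      · refine le_trans (le_of_eq ?_)
          (mul_le_mul_of_nonneg_left ((hT σ).sumS s hs) (by positivity))
        rw [mul_sum]
        refine sum_congr rfl fun τ _ => ?_
        rw [← ind_mul]
        congr 1
        have h1 := (hT σ).R1 τ
        have h2 := (hT σ).RW τ
        have h3 : (T σ).W τ ≠ 0 := by linarith
        field_simp
        ring
      · apply sum_nonpos
        intro τ _
        rw [ind_neg]
        rintro ⟨x, hx, hx', hx''⟩
        exact hσ ⟨x, (hT σ).sub τ hx, hx', hx'' I ((hT σ).top τ k.succ_ne_zero)⟩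
    · have h1 := hT₀.R1 τ
      have h2 := hT₀.RW τ
      refine ind_mono ?_ (div_nonneg (by linarith) (by linarith)) le_rfl
      rintro ⟨x, hx, hx', hx''⟩
      exact ⟨x, hx, hx', fun J hJ => hx'' J (List.mem_cons_of_mem _ hJ)⟩

lemma card_cells_le (m c d s : ℕ) (q : MP (m + 1)) (hq0 : q ≠ 0) (hqc : q.totalDegree ≤ c)
    (f : Fin s → MP (m + 1)) (hd : ∀ i, (f i).totalDegree ≤ d) (Z : Finset (Fin s → Bool))
    (h : ∀ σ ∈ Z, ∃ z, eval z q = 0 ∧ ∀ i, 0 < sg (σ i) * eval z (f i)) :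
    #Z ≤ c * c * (m * (s * d + 2 * c + 2) + 2) ^ m := by
  classical
  choose! z hz hz' using h
  have key : ∀ σ ∈ Z, ∀ σ' ∈ Z, (∀ i, 0 < eval (z σ) (f i) * eval (z σ') (f i)) → σ = σ' := by
    intro σ hσ σ' hσ' hh
    funext i
    have h1 := hz' σ hσ i
    have h2 := hz' σ' hσ' i
    have h3 := hh i
    cases hi : σ i <;> cases hi' : σ' i <;> simp only [hi, hi', sg_true, sg_false] at h1 h2 ⊢
    · nlinarith
    · nlinarith
  have hne : ∀ σ ∈ Z, ∀ i, eval (z σ) (f i) ≠ 0 :=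
    fun σ hσ i => right_ne_zero_of_mul (hz' σ hσ i).ne'
  have hinj : Set.InjOn z Z := by
    intro σ hσ σ' hσ' hh
    apply key σ hσ σ' hσ'
    intro i
    rw [← hh]
    exact mul_self_pos.2 (hne σ hσ i)
  have := card_le_on_hypersurface m c d q hq0 hqc f hd (Z.image z) ?_ ?_ ?_
  · rwa [card_image_of_injOn hinj, Fintype.card_fin] at this
  · intro x hx
    obtain ⟨σ, hσ, rfl⟩ := mem_image.1 hx
    exact hz σ hσ
  · intro x hx
    obtain ⟨σ, hσ, rfl⟩ := mem_image.1 hx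
    exact hne σ hσ
  · intro x hx x' hx' hh
    obtain ⟨σ, hσ, rfl⟩ := mem_image.1 hx
    obtain ⟨σ', hσ', rfl⟩ := mem_image.1 hx'
    rw [key σ hσ σ' hσ' hh]

lemma exists_pow_ge (a b j : ℕ) {ρ : ℝ} (hρ : 1 < ρ) :
    ∃ s : ℕ, 1 ≤ s ∧ (a * (b * s + b) ^ j : ℝ) ≤ ρ ^ s := by
  have h := tendsto_pow_const_div_const_pow_of_one_lt j hρ
  have h1 := h.eventually (gt_mem_nhds (show (0 : ℝ) < 1 / (a * (2 * b) ^ j + 1) by positivity))
  obtain ⟨s, hs, hs1⟩ := (h1.and (Filter.eventually_ge_atTop 1)).exists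
  refine ⟨s, hs1, ?_⟩
  have hρs : 0 < ρ ^ s := by positivity
  rw [div_lt_div_iff₀ hρs (by positivity), one_mul] at hs
  have hs1' : (1 : ℝ) ≤ s := by exact_mod_cast hs1
  have h2 : ((b : ℝ) * s + b) ^ j ≤ (2 * b) ^ j * s ^ j := by
    rw [← mul_pow]
    apply pow_le_pow_left₀ (by positivity)
    nlinarith [mul_le_mul_of_nonneg_left hs1' (Nat.cast_nonneg b : (0 : ℝ) ≤ b)]
  have h3 := mul_le_mul_of_nonneg_left h2 (Nat.cast_nonneg a : (0 : ℝ) ≤ a)
  nlinarith [pow_nonneg (Nat.cast_nonneg s : (0 : ℝ) ≤ s) j]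

/-- The partition tree. -/
theorem exists_tree (n k : ℕ) {ε : ℝ} (hε : 0 < ε) (c : ℕ) :
    ∃ K : ℝ, 1 ≤ K ∧ ∀ (I : Ideal (MP n)) (y : Fin k → MP n), Nice n k c I y →
      ∀ X : Finset (Fin n → ℝ), (∀ x ∈ X, Van I x) → ∀ θ : ℝ,
        ∃ T : Tree n, T.Ok k I X θ K (K * (#X : ℝ) ^ ε) := by
  classical
  have hleaf : ∀ (K : ℝ) (X : Finset (Fin n → ℝ)), 1 ≤ K → X.Nonempty →
      1 ≤ K * (#X : ℝ) ^ ε := by
    intro K X hK hX
    apply one_le_mul_of_one_le_of_one_le hK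
    exact Real.one_le_rpow (by exact_mod_cast hX.card_pos) hε.le
  induction k generalizing c with
  | zero =>
    refine ⟨c + 1, by simp, fun I y hN X hX θ => ?_⟩
    rcases X.eq_empty_or_nonempty with rfl | hne
    · exact exists_tree_empty _ _ _ _ _ (by positivity)
    · refine exists_tree_leaf 0 I X θ _ _ (hleaf _ X (by simp) hne) (Or.inr ?_) [] le_rfl
        (fun h => absurd rfl h) (by simp)
      have : (#X : ℝ) ≤ c := by exact_mod_cast hN.card_le X hX
      linarith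
  | succ k ih =>
    set ρ : ℝ := (2 : ℝ) ^ ε with hρ
    have hρ1 : 1 < ρ := Real.one_lt_rpow one_lt_two hε
    set c₁ := (k + 1) * (c * (k + 1 + 2 + 1) ^ (k + 1)) with hc₁
    set b := (k + 1) * ((k + 1) * (k + 1) + 2 * c₁ + 8) with hb
    obtain ⟨s', hs'1, hs'⟩ := exists_pow_ge (2 * (c₁ * c₁ + 4)) b (k + 1) hρ1
    set r : ℕ := 2 ^ s' with hr
    set s := s' * (k + 1) with hs
    set d := (k + 1) * r with hd
    set κ : ℕ := (c₁ * c₁ + 4) * (b * s' + b) ^ (k + 1) with hκ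
    have hr1 : 1 ≤ r := Nat.one_le_two_pow
    have hrs : r ^ (k + 1) = 2 ^ s := by rw [hr, ← pow_mul]
    have hb8 : (k + 1) * (k + 1) + 2 * c₁ + 8 ≤ b := Nat.le_mul_of_pos_left _ k.succ_pos
    have hbs1 : 1 ≤ b * s' + b := by omega
    have hκ1 : 1 ≤ κ := Nat.mul_pos (by omega) (by positivity)
    have hκρ : 2 * (κ : ℝ) ≤ ρ ^ s := by
      refine le_trans (le_of_eq ?_) (hs'.trans (pow_le_pow_right₀ hρ1.le ?_))
      · rw [hκ]; push_cast; ring
      · exact Nat.le_mul_of_pos_right _ k.succ_pos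
    have hsd : s * d = (k + 1) * (k + 1) * s' * r := by rw [hs, hd]; ring
    have hκC : 2 * 2 * (1 * (s * d + 2 * 2 + 2) + 2) ^ 1 ≤ κ * r := by
      have h1 : s * d + 8 ≤ (b * s' + b) * r := by
        rw [hsd, add_mul (b * s')]
        apply Nat.add_le_add
        · exact Nat.mul_le_mul_right _ (Nat.mul_le_mul_right _ (by omega))
        · nlinarith
      have h2 : b * s' + b ≤ (b * s' + b) ^ (k + 1) := Nat.le_self_pow k.succ_ne_zero _
      calc _ = 4 * (s * d + 8) := by ring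
        _ ≤ (c₁ * c₁ + 4) * ((b * s' + b) ^ (k + 1) * r) :=
            Nat.mul_le_mul (by omega) (h1.trans (Nat.mul_le_mul_right _ h2))
        _ = κ * r := by rw [hκ]; ring
    have hκS : c₁ * c₁ * (k * (s * d + 2 * c₁ + 2) + 2) ^ k ≤ κ * r ^ k := by
      have h1 : k * (s * d + 2 * c₁ + 2) + 2 ≤ (b * s' + b) * r := by
        have e1 : k * (s * d) ≤ b * s' * r := by
          rw [hsd, ← mul_assoc, ← mul_assoc]
          apply Nat.mul_le_mul_right
          apply Nat.mul_le_mul_right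
          rw [hb]
          exact Nat.mul_le_mul k.le_succ (by omega)
        have e2 : k * (2 * c₁ + 2) + 2 ≤ b * r := by
          refine le_trans ?_ (Nat.le_mul_of_pos_right _ hr1)
          rw [hb]; nlinarith
        calc _ = k * (s * d) + (k * (2 * c₁ + 2) + 2) := by ring
          _ ≤ b * s' * r + b * r := Nat.add_le_add e1 e2
          _ = _ := by ring
      have h2 : (b * s' + b) ^ k ≤ (b * s' + b) ^ (k + 1) := Nat.pow_le_pow_right hbs1 k.le_succ
      calc _ ≤ (c₁ * c₁ + 4) * ((b * s' + b) * r) ^ k :=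
            Nat.mul_le_mul (by omega) (Nat.pow_le_pow_left h1 _)
        _ ≤ (c₁ * c₁ + 4) * ((b * s' + b) ^ (k + 1) * r ^ k) := by
            rw [mul_pow]
            exact Nat.mul_le_mul_left _ (Nat.mul_le_mul_right _ h2)
        _ = κ * r ^ k := by rw [hκ]; ring
    obtain ⟨K₀, hK₀, ih⟩ := ih (c * (s * d))
    have hrk : (0 : ℝ) ≤ (r : ℝ) ^ k := by positivity
    refine ⟨2 * K₀ + (r : ℝ) ^ k, by linarith, fun I y hN X => ?_⟩
    set K := 2 * K₀ + (r : ℝ) ^ k with hK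
    induction X using Finset.strongInduction with
    | H X ihX =>
      intro hX θ
      rcases X.eq_empty_or_nonempty with rfl | hne
      · exact exists_tree_empty _ _ _ _ _ (by positivity)
      by_cases hθ : θ ≤ 1
      · refine exists_tree_leaf _ I X θ _ _ (hleaf _ X (by linarith) hne) (Or.inl hθ) [I] (by simp)
          (fun _ => List.mem_singleton_self _) ?_
        intro J hJ
        rw [List.mem_singleton.1 hJ]
        exact ⟨le_rfl, hX, k, c, y, hN⟩
      push Not at hθ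
      obtain ⟨h, hh, hcell⟩ := poly_partition (k + 1) r s
        (by rw [← hrs]; exact Nat.pow_le_pow_left r.le_succ _)
        (fun x : Fin n → ℝ => fun i => eval x (y i)) X
      let Xc : (Fin s → Bool) → Finset (Fin n → ℝ) := fun σ =>
        {x ∈ X | ∀ i, 0 < sg (σ i) * eval (fun i => eval x (y i)) (h i)}
      let X₀ : Finset (Fin n → ℝ) := {x ∈ X | eval x (aeval y (∏ i, h i)) = 0}
      obtain ⟨y', hN'⟩ := hN.step (∏ i, h i) (prod_ne_zero_iff.2 fun i _ => (hh i).1)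
        (D := s * d) (by
          refine (totalDegree_finsetProd _ _).trans ?_
          calc ∑ i, (h i).totalDegree ≤ ∑ _i : Fin s, d := sum_le_sum fun i _ => (hh i).2
            _ = s * d := by simp)
      obtain ⟨T₀, hT₀⟩ := ih _ y' hN' X₀
        (fun x hx => (hX x (mem_filter.1 hx).1).sup (mem_filter.1 hx).2) θ
      have hXpos : 0 < #X := hne.card_pos
      have hs1 : 1 ≤ s := Nat.mul_pos hs'1 k.succ_pos
      have hss : ∀ σ, Xc σ ⊂ X := by
        intro σ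
        refine (filter_subset _ _).ssubset_of_ne fun heq => ?_
        have h1 := hcell σ
        rw [heq] at h1
        have : 2 ≤ 2 ^ s := Nat.le_self_pow (by omega) 2
        nlinarith
      choose T hT using fun σ => ihX (Xc σ) (hss σ) (fun x hx => hX x (hss σ |>.subset hx))
        (θ / (r : ℝ) ^ k)
      have hρs : 0 < ρ ^ s := by positivity
      have hXε : 0 ≤ (#X : ℝ) ^ ε := by positivity
      have hcε : ∀ σ, K * (#(Xc σ) : ℝ) ^ ε ≤ K * (#X : ℝ) ^ ε / ρ ^ s := by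
        intro σ
        rw [mul_div_assoc]
        apply mul_le_mul_of_nonneg_left _ (by linarith)
        rw [le_div_iff₀ hρs, hρ, ← Real.rpow_natCast, ← Real.rpow_mul (by norm_num), mul_comm ε,
          Real.rpow_mul (by norm_num), Real.rpow_natCast,
          ← Real.mul_rpow (by positivity) (by positivity)]
        apply Real.rpow_le_rpow (by positivity) _ hε.le
        rw [mul_comm]
        exact_mod_cast hcell σ
      have hcov : ∀ x ∈ X, x ∈ X₀ ∨ ∃ σ, x ∈ Xc σ := by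
        intro x hx
        by_cases h0 : eval x (aeval y (∏ i, h i)) = 0
        · exact Or.inl (mem_filter.2 ⟨hx, h0⟩)
        · right
          rw [eval_aeval', map_prod] at h0
          refine ⟨fun i => decide (0 < eval (fun i => eval x (y i)) (h i)),
            mem_filter.2 ⟨hx, fun i => ?_⟩⟩
          have h1 := prod_ne_zero_iff.1 h0 i (mem_univ i)
          by_cases h2 : 0 < eval (fun i => eval x (y i)) (h i)
          · simp only [h2, decide_true, sg_true, one_mul]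
          · simp only [h2, decide_false, sg_false, neg_mul, one_mul, neg_pos]
            exact lt_of_le_of_ne (not_lt.1 h2) h1
      have hm₀ : K₀ * (#X₀ : ℝ) ^ ε ≤ K₀ * (#X : ℝ) ^ ε := by
        apply mul_le_mul_of_nonneg_left _ (by linarith)
        apply Real.rpow_le_rpow (by positivity) _ hε.le
        exact_mod_cast card_le_card (filter_subset _ _)
      have hC : ∀ Y, IsConic Y → ∀ Z : Finset (Fin s → Bool),
          (∀ σ ∈ Z, ∃ x ∈ Xc σ, x ∈ Y) → (#Z : ℝ) ≤ κ * r := by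
        rintro Y ⟨φ, q, hφ, hq0, hq2, hY⟩ Z hZ
        have := card_cells_le 1 2 d s q hq0 hq2 (fun i => aeval φ (aeval y (h i))) (fun i => by
          refine (totalDegree_aeval_le φ 1 hφ _).trans ?_
          rw [one_mul]
          refine (totalDegree_aeval_le y 1 hN.1 _).trans ?_
          rw [one_mul]; exact (hh i).2) Z (fun σ hσ => by
          obtain ⟨x, hx, hxY⟩ := hZ σ hσ
          obtain ⟨z, hz, rfl⟩ := hY x hxY
          refine ⟨z, hz, fun i => ?_⟩
          rw [eval_aeval', eval_aeval']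
          exact (mem_filter.1 hx).2 i)
        exact_mod_cast this.trans hκC
      have hQ : ∀ g : MP n, g.totalDegree ≤ 2 → ∀ Z : Finset (Fin s → Bool),
          (∀ σ ∈ Z, ∃ x ∈ Xc σ, eval x g = 0 ∧ ¬ DegAt I x g) → (#Z : ℝ) ≤ κ * (r : ℝ) ^ k := by
        intro g hg Z hZ
        obtain ⟨q, hq0, hqd, hq⟩ := hN.exists_curve g 2 hg
        have := card_cells_le k c₁ d s q hq0 hqd h (fun i => (hh i).2) Z (fun σ hσ => by
          obtain ⟨x, hx, hx1, hx2⟩ := hZ σ hσ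
          exact ⟨_, hq x (hX x (mem_filter.1 hx).1) hx1 hx2, (mem_filter.1 hx).2⟩)
        exact_mod_cast this.trans hκS
      have hcard : (Fintype.card (Fin s → Bool) : ℝ) ≤ (r : ℝ) ^ (k + 1) := by
        rw [Fintype.card_fun, Fintype.card_bool, Fintype.card_fin, ← hrs, Nat.cast_pow]
      obtain ⟨T', hT'⟩ := exists_tree_combine k I _ le_sup_left ⟨c, y, hN⟩ X hX (Fin s → Bool)
        Xc X₀ hcov (fun σ => (hss σ).subset) (filter_subset _ _) r θ K (K * (#X : ℝ) ^ ε / ρ ^ s)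
        (K₀ * (#X : ℝ) ^ ε) κ (by exact_mod_cast hr1) hθ.le (by linarith) (by positivity)
        (by exact_mod_cast hκ1) (fun σ => by exact_mod_cast (hrs ▸ hcell σ :)) hcard
        T (fun σ => (hT σ).mono (by positivity) le_rfl (hcε σ)) T₀
        (hT₀.mono (by linarith) (by linarith) hm₀) hC hQ
      refine ⟨T', hT'.mono (by linarith) le_rfl ?_⟩
      have h0 : 0 ≤ K * (#X : ℝ) ^ ε := by positivity
      have h1 : (κ : ℝ) * (K * (#X : ℝ) ^ ε / ρ ^ s) ≤ K * (#X : ℝ) ^ ε / 2 := by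
        rw [← mul_div_assoc, div_le_div_iff₀ hρs two_pos]
        have := mul_le_mul_of_nonneg_left hκρ h0
        linarith
      have h2 : K₀ * (#X : ℝ) ^ ε ≤ K * (#X : ℝ) ^ ε / 2 := by
        have := mul_nonneg hrk hXε
        rw [hK]; linarith
      linarith

end Pool.Agent.Lib.PolyPart
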